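import Pool.Agent.Y338.AdmSum

/-!
# Admissible systems: the counterexample
-/

set_option autoImplicit false

universe u

namespace Pool.Agent.Y338.Adm

open Matroid Set

variable {S : Type u}

/-- the admissible system of all direct sums of finitary and cofinitary matroids -/
def sys (W : Set S) : Set (Set (Set S)) := {I | ∃ M : Matroid S, M.E = W ∧ fam M = I ∧ Good M}

theorem sys_admissible : IsAdmissible (sys (S := S)) where
  pre := by
    rintro W I ⟨M, rfl, rfl, hM⟩
    exact fam_pre M
  restriction_mem := by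
    rintro W Z hZ I ⟨M, rfl, rfl, hM⟩
    exact ⟨M ↾ Z, restrict_ground_eq, (restriction_fam M Z).symm, hM.restrict hZ⟩
  exists_basis := by
    rintro W Z hZ I ⟨M, rfl, rfl, hM⟩
    obtain ⟨B, hB⟩ := M.exists_isBasis (M.E \ Z) sdiff_subset
    exact ⟨B, (bases_restriction_fam M sdiff_subset B).2 hB⟩
  contraction_eq := by
    rintro W Z hZ I ⟨M, rfl, rfl, hM⟩ B hB B' hB'
    rw [bases_restriction_fam M sdiff_subset] at hB hB'
    rw [contraction_fam M hB, contraction_fam M hB']
  contraction_mem := by
    rintro W Z hZ I ⟨M, rfl, rfl, hM⟩ B hB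
    rw [bases_restriction_fam M sdiff_subset] at hB
    refine ⟨M ／ (M.E \ Z), ?_, (contraction_fam M hB).symm, hM.contract sdiff_subset⟩
    rw [contract_ground, sdiff_sdiff_cancel_left hZ]
  dual_mem := by
    rintro W I ⟨M, rfl, rfl, hM⟩
    exact ⟨M✶, dual_ground, (dual_fam M).symm, hM.dual⟩
  dual_dual := by
    rintro W I ⟨M, rfl, rfl, hM⟩
    rw [dual_fam M]
    have := dual_fam M✶
    rw [dual_ground, Matroid.dual_dual] at this
    exact this

theorem sys_indepSpace [Nonempty S] {W : Set S} {I : Set (Set S)} (h : IsIndependenceSpace W I) :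
    I ∈ sys W := by
  obtain ⟨M, h1, h2, h3⟩ := exists_finitary h
  exact ⟨M, h1, h2, good_of_fc (Or.inl h3) inferInstance⟩

theorem sys_sum [Infinite S] : ClosedUnderDirectSums (sys (S := S)) := by
  intro W c J hJ
  choose M hE hF hG using hJ
  obtain ⟨N, hN1, hN2, hN3⟩ := good_sum hE hG
  refine ⟨N, hN1, ?_, hN2⟩
  ext X
  rw [mem_fam, hN3]
  refine and_congr_right fun _ => forall_congr' fun i => ?_
  rw [← hF i]
  exact Iff.rfl

theorem sys_iso [Nonempty S] : ClosedUnderIsomorphism (sys (S := S)) := by
  rintro W f hf I ⟨M, rfl, rfl, hM⟩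
  refine ⟨M.map f hf, map_ground _ _ _, ?_, hM.map hf⟩
  ext Y
  rw [mem_fam, map_indep_iff]
  exact Iff.rfl

/-- the example: at most one element of `B`, and none if the set contains `A` -/
def ex (A B : Set S) : Set (Set S) :=
  {X | X ⊆ A ∪ B ∧ (X ∩ B).Subsingleton ∧ (A ⊆ X → X ∩ B = ∅)}

theorem ex_down {A B X Y : Set S} (hX : X ∈ ex A B) (hY : Y ⊆ X) : Y ∈ ex A B := by
  obtain ⟨h1, h2, h3⟩ := hX
  refine ⟨hY.trans h1, h2.anti (inter_subset_inter_left _ hY), fun h => ?_⟩
  have h4 := h3 (h.trans hY)
  exact subset_empty_iff.1 ((inter_subset_inter_left _ hY).trans h4.subset)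

/-- a part of `A` -/
theorem ex_of_subset {A B X : Set S} (hAB : Disjoint A B) (hX : X ⊆ A) : X ∈ ex A B := by
  have h1 : X ∩ B = ∅ := (hAB.mono_left hX).inter_eq
  refine ⟨hX.trans subset_union_left, ?_, fun _ => h1⟩
  rw [h1]
  exact subsingleton_empty

/-- a proper part of `A` together with one element of `B` -/
theorem ex_insert {A B X : Set S} (hAB : Disjoint A B) (hX : X ⊆ A) {a b : S} (ha : a ∈ A)
    (haX : a ∉ X) (hb : b ∈ B) : insert b X ∈ ex A B := by
  have h1 : X ∩ B = ∅ := (hAB.mono_left hX).inter_eq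
  have h2 : insert b X ∩ B = {b} := by
    rw [insert_inter_of_mem hb, h1, insert_empty_eq]
  refine ⟨?_, ?_, fun h => ?_⟩
  · exact insert_subset (mem_union_right A hb) (hX.trans subset_union_left)
  · rw [h2]
    exact subsingleton_singleton
  · exfalso
    rcases h ha with h3 | h3
    · exact disjoint_left.1 hAB ha (h3 ▸ hb)
    · exact haX h3

theorem mem_bases_restriction {I : Set (Set S)} {X B : Set S} :
    B ∈ bases (restriction I X) ↔ (B ⊆ X ∧ B ∈ I) ∧ ∀ Y, Y ⊆ X → Y ∈ I → B ⊆ Y → Y ⊆ B := by
  constructor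
  · intro h
    exact ⟨h.1, fun Y h1 h2 h3 => h.2 (show Y ∈ restriction I X from ⟨h1, h2⟩) h3⟩
  · rintro ⟨h1, h2⟩
    exact ⟨h1, fun Y hY h3 => h2 Y hY.1 hY.2 h3⟩

/-- the maximal members inside `X` -/
theorem ex_bases {A B : Set S} (hAB : Disjoint A B) {X : Set S} (hX : X ⊆ A ∪ B) (Y : Set S) :
    Y ∈ bases (restriction (ex A B) X) ↔
      (A ⊆ X ∧ Y = A) ∨ (X ∩ B = ∅ ∧ Y = X) ∨
      (¬ A ⊆ X ∧ ∃ b ∈ X ∩ B, Y = insert b (X ∩ A)) ∨
      (A ⊆ X ∧ ∃ b ∈ X ∩ B, ∃ a ∈ A, Y = insert b (A \ {a})) := by
  rw [mem_bases_restriction]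
  have hsplit : ∀ Z ⊆ X, Z = (Z ∩ A) ∪ (Z ∩ B) := by
    intro Z hZ
    rw [← inter_union_distrib_left]
    exact (inter_eq_left.2 (hZ.trans hX)).symm
  constructor
  · rintro ⟨⟨h1, h2⟩, h3⟩
    by_cases hYB : Y ∩ B = ∅
    · have hYA : Y ⊆ A := by
        rw [hsplit Y h1, hYB, union_empty]
        exact inter_subset_right
      have hYe : X ∩ A ⊆ Y := h3 (X ∩ A) inter_subset_left (ex_of_subset hAB inter_subset_right)
        (subset_inter h1 hYA)
      by_cases hAX : A ⊆ X
      · left
        refine ⟨hAX, hYA.antisymm ?_⟩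
        rwa [inter_eq_right.2 hAX] at hYe
      · right; left
        have hXB : X ∩ B = ∅ := by
          rw [eq_empty_iff_forall_notMem]
          intro b hb
          obtain ⟨a, ha, haX⟩ := not_subset.1 hAX
          have h4 : insert b Y ∈ ex A B := ex_insert hAB hYA ha (fun h => haX (h1 h)) hb.2
          have h5 := h3 _ (insert_subset hb.1 h1) h4 (subset_insert _ _) (mem_insert b Y)
          have : b ∈ Y ∩ B := ⟨h5, hb.2⟩
          rw [hYB] at this
          exact this
        refine ⟨hXB, h1.antisymm ?_⟩
        rw [hsplit X subset_rfl, hXB, union_empty]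
        exact hYe
    · obtain ⟨b, hb⟩ := nonempty_iff_ne_empty.2 hYB
      have hYBe : Y ∩ B = {b} := h2.2.1.eq_singleton_of_mem hb
      have hYA : ¬ A ⊆ Y := fun h => hYB (h2.2.2 h)
      obtain ⟨a, ha, haY⟩ := not_subset.1 hYA
      have hYeq : Y = insert b (Y ∩ A) := by
        conv_lhs => rw [hsplit Y h1, hYBe, union_comm]
        rw [singleton_union]
      by_cases hAX : A ⊆ X
      · right; right; right
        refine ⟨hAX, b, ⟨h1 hb.1, hb.2⟩, a, ha, ?_⟩
        have h4 : insert b (A \ {a}) ∈ ex A B :=
          ex_insert hAB sdiff_subset ha (fun h => h.2 rfl) hb.2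
        have h5 : Y ⊆ insert b (A \ {a}) := by
          rw [hYeq]
          apply insert_subset_insert
          intro x hx
          exact ⟨hx.2, fun h => haY (h ▸ hx.1)⟩
        exact h5.antisymm (h3 _ (insert_subset (h1 hb.1) (sdiff_subset.trans hAX)) h4 h5)
      · right; right; left
        refine ⟨hAX, b, ⟨h1 hb.1, hb.2⟩, ?_⟩
        obtain ⟨a', ha', haX'⟩ := not_subset.1 hAX
        have h4 : insert b (X ∩ A) ∈ ex A B :=
          ex_insert hAB inter_subset_right ha' (fun h => haX' h.1) hb.2
        have h5 : Y ⊆ insert b (X ∩ A) := by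
          rw [hYeq]
          exact insert_subset_insert (inter_subset_inter_left _ h1)
        exact h5.antisymm (h3 _ (insert_subset (h1 hb.1) inter_subset_left) h4 h5)
  · rintro (⟨hAX, rfl⟩ | ⟨hXB, rfl⟩ | ⟨hAX, b, hb, rfl⟩ | ⟨hAX, b, hb, a, ha, rfl⟩)
    · refine ⟨⟨hAX, ex_of_subset hAB subset_rfl⟩, fun Z hZ hZI hAZ => ?_⟩
      have h1 := hZI.2.2 hAZ
      rw [hsplit Z hZ, h1, union_empty]
      exact inter_subset_right
    · have hXA : Y ⊆ A := by
        rw [hsplit Y subset_rfl, hXB, union_empty]
        exact inter_subset_right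
      exact ⟨⟨subset_rfl, ex_of_subset hAB hXA⟩, fun Z hZ _ _ => hZ⟩
    · obtain ⟨a, ha, haX⟩ := not_subset.1 hAX
      refine ⟨⟨insert_subset hb.1 inter_subset_left,
        ex_insert hAB inter_subset_right ha (fun h => haX h.1) hb.2⟩, fun Z hZ hZI hYZ => ?_⟩
      have h1 : Z ∩ B = {b} := hZI.2.1.eq_singleton_of_mem ⟨hYZ (mem_insert _ _), hb.2⟩
      rw [hsplit Z hZ, h1, union_comm, singleton_union]
      exact insert_subset_insert (inter_subset_inter_left _ hZ)
    · refine ⟨⟨insert_subset hb.1 (sdiff_subset.trans hAX),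
        ex_insert hAB sdiff_subset ha (fun h => h.2 rfl) hb.2⟩, fun Z hZ hZI hYZ => ?_⟩
      have h1 : Z ∩ B = {b} := hZI.2.1.eq_singleton_of_mem ⟨hYZ (mem_insert _ _), hb.2⟩
      rw [hsplit Z hZ, h1, union_comm, singleton_union]
      apply insert_subset_insert
      intro x hx
      refine ⟨hx.2, fun h => ?_⟩
      have hxa : x = a := h
      subst hxa
      have hAZ : A ⊆ Z := by
        intro y hy
        by_cases hyx : y = x
        · rw [hyx]; exact hx.1
        · exact hYZ (Or.inr ⟨hy, hyx⟩)
      have h2 := hZI.2.2 hAZ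
      rw [h1] at h2
      exact singleton_ne_empty b h2

theorem ex_bmatroid {A B : Set S} (hAB : Disjoint A B) (hA : A.Nonempty) :
    IsBMatroid (A ∪ B) (ex A B) where
  ground X hX := hX.1
  empty := ex_of_subset hAB (empty_subset _)
  subset X hX Y hY := ex_down hX hY
  ib1 := by
    intro X hX T hT hTX
    by_cases hTB : T ∩ B = ∅
    · have hTA : T ⊆ A := by
        intro x hx
        rcases hT.1 hx with h | h
        · exact h
        · exfalso
          have : x ∈ T ∩ B := ⟨hx, h⟩
          rw [hTB] at this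
          exact this
      by_cases hAX : A ⊆ X
      · exact ⟨A, (ex_bases hAB hX _).2 (Or.inl ⟨hAX, rfl⟩), hTA⟩
      · by_cases hXB : X ∩ B = ∅
        · exact ⟨X, (ex_bases hAB hX _).2 (Or.inr (Or.inl ⟨hXB, rfl⟩)), hTX⟩
        · obtain ⟨b, hb⟩ := nonempty_iff_ne_empty.2 hXB
          exact ⟨insert b (X ∩ A), (ex_bases hAB hX _).2 (Or.inr (Or.inr (Or.inl ⟨hAX, b, hb, rfl⟩))),
            (subset_inter hTX hTA).trans (subset_insert _ _)⟩
    · obtain ⟨b, hb⟩ := nonempty_iff_ne_empty.2 hTB
      have hTBe : T ∩ B = {b} := hT.2.1.eq_singleton_of_mem hb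
      have hTA : ¬ A ⊆ T := fun h => hTB (hT.2.2 h)
      obtain ⟨a, ha, haT⟩ := not_subset.1 hTA
      have hT' : T ⊆ insert b (T ∩ A) := by
        intro x hx
        rcases hT.1 hx with h | h
        · exact Or.inr ⟨hx, h⟩
        · have : x ∈ T ∩ B := ⟨hx, h⟩
          rw [hTBe] at this
          exact Or.inl this
      by_cases hAX : A ⊆ X
      · refine ⟨insert b (A \ {a}), (ex_bases hAB hX _).2
          (Or.inr (Or.inr (Or.inr ⟨hAX, b, ⟨hTX hb.1, hb.2⟩, a, ha, rfl⟩))), hT'.trans ?_⟩
        apply insert_subset_insert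
        intro x hx
        exact ⟨hx.2, fun h => haT (h ▸ hx.1)⟩
      · refine ⟨insert b (X ∩ A), (ex_bases hAB hX _).2
          (Or.inr (Or.inr (Or.inl ⟨hAX, b, ⟨hTX hb.1, hb.2⟩, rfl⟩))), hT'.trans ?_⟩
        exact insert_subset_insert (inter_subset_inter_left _ hTX)
  ib2 := by
    intro X hX B₁ h₁ B₂ h₂ x hx
    rw [ex_bases hAB hX] at h₁ h₂
    simp only [ex_bases hAB hX]
    rcases h₁ with ⟨hAX, rfl⟩ | ⟨hXB, rfl⟩ | ⟨hAX, b, hb, rfl⟩ | ⟨hAX, b, hb, a, ha, rfl⟩
    · -- `B₁ = A`
      rcases h₂ with ⟨_, rfl⟩ | ⟨hXB, rfl⟩ | ⟨hAX', -⟩ | ⟨_, b, hb, a, ha, rfl⟩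
      · exact absurd hx.1 hx.2
      · exact absurd (hAX hx.1) hx.2
      · exact absurd hAX hAX'
      · refine ⟨b, ⟨mem_insert _ _, fun h => disjoint_left.1 hAB h hb.2⟩, ?_⟩
        right; right; right
        refine ⟨hAX, b, hb, x, hx.1, ?_⟩
        rw [union_singleton]
    · -- `X ∩ B = ∅`, `B₁ = X`
      rcases h₂ with ⟨hAX, rfl⟩ | ⟨_, rfl⟩ | ⟨_, b, hb, -⟩ | ⟨_, b, hb, -⟩
      · exfalso
        rcases hX hx.1 with h | h
        · exact hx.2 h
        · have : x ∈ B₁ ∩ B := ⟨hx.1, h⟩
          rw [hXB] at this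
          exact this
      · exact absurd hx.1 hx.2
      · rw [hXB] at hb
        exact absurd hb (notMem_empty _)
      · rw [hXB] at hb
        exact absurd hb (notMem_empty _)
    · -- `A ⊄ X`, `B₁ = b ∪ (X ∩ A)`
      rcases h₂ with ⟨hAX', -⟩ | ⟨hXB, -⟩ | ⟨_, b', hb', rfl⟩ | ⟨hAX', -⟩
      · exact absurd hAX' hAX
      · rw [hXB] at hb
        exact absurd hb (notMem_empty _)
      · obtain ⟨hx1, hx2⟩ := hx
        have hxb : x = b := by
          rcases hx1 with h | h
          · exact h
          · exact absurd (Or.inr h) hx2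
        subst hxb
        have hbb : b' ≠ x := fun h => hx2 (Or.inl h.symm)
        refine ⟨b', ⟨mem_insert _ _, ?_⟩, ?_⟩
        · rintro (h | h)
          · exact hbb h
          · exact disjoint_left.1 hAB h.2 hb'.2
        · right; right; left
          refine ⟨hAX, b', hb', ?_⟩
          have hxA : x ∉ X ∩ A := fun h => disjoint_left.1 hAB h.2 hb.2
          rw [insert_sdiff_self_of_notMem hxA, union_singleton]
      · exact absurd hAX' hAX
    · -- `A ⊆ X`, `B₁ = b ∪ (A \ a)`
      have hbA : b ∉ A := fun h => disjoint_left.1 hAB h hb.2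
      rcases h₂ with ⟨_, rfl⟩ | ⟨hXB, -⟩ | ⟨hAX', -⟩ | ⟨_, b', hb', a', ha', rfl⟩
      · -- `B₂ = A`
        obtain ⟨hx1, hx2⟩ := hx
        have hxb : x = b := by
          rcases hx1 with h | h
          · exact h
          · exact absurd h.1 hx2
        subst hxb
        refine ⟨a, ⟨ha, ?_⟩, ?_⟩
        · rintro (h | h)
          · exact hbA (h ▸ ha)
          · exact h.2 rfl
        · left
          refine ⟨hAX, ?_⟩
          rw [insert_sdiff_self_of_notMem (fun h => hbA h.1), sdiff_union_self]
          exact union_eq_left.2 (singleton_subset_iff.2 ha)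
      · rw [hXB] at hb
        exact absurd hb (notMem_empty _)
      · exact absurd hAX hAX'
      · -- `B₂ = b' ∪ (A \ a')`
        obtain ⟨hx1, hx2⟩ := hx
        have hb'A : b' ∉ A := fun h => disjoint_left.1 hAB h hb'.2
        by_cases hxb : x = b
        · subst hxb
          have hbb : b' ≠ x := fun h => hx2 (Or.inl h.symm)
          refine ⟨b', ⟨mem_insert _ _, ?_⟩, ?_⟩
          · rintro (h | h)
            · exact hbb h
            · exact hb'A h.1
          · right; right; right
            refine ⟨hAX, b', hb', a, ha, ?_⟩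
            rw [insert_sdiff_self_of_notMem (fun h => hbA h.1), union_singleton]
        · have hxA : x ∈ A \ {a} := hx1.resolve_left hxb
          have hxa' : x = a' := by
            by_contra hne
            exact hx2 (Or.inr ⟨hxA.1, hne⟩)
          subst hxa'
          have hxa : x ≠ a := hxA.2
          refine ⟨a, ⟨Or.inr ⟨ha, fun h => hxa (h : a = x).symm⟩, ?_⟩, ?_⟩
          · rintro (h | h)
            · exact hbA (h ▸ ha)
            · exact h.2 rfl
          · right; right; right
            refine ⟨hAX, b, hb, x, ha', ?_⟩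
            ext y
            simp only [mem_union, mem_sdiff, mem_insert_iff, mem_singleton_iff]
            constructor
            · rintro (⟨h1 | h1, h2⟩ | h1)
              · exact Or.inl h1
              · exact Or.inr ⟨h1.1, h2⟩
              · subst h1
                exact Or.inr ⟨ha, fun h => hxa h.symm⟩
            · rintro (h1 | ⟨h1, h2⟩)
              · subst h1
                exact Or.inl ⟨Or.inl rfl, fun h => hxb h.symm⟩
              · by_cases h3 : y = a
                · exact Or.inr h3
                · exact Or.inl ⟨Or.inr ⟨h1, h3⟩, h2⟩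

/-- the example is not in the system -/
theorem ex_not_mem {A B : Set S} (hAB : Disjoint A B) (hA : A.Infinite) (hB : B.Infinite) :
    ex A B ∉ sys (A ∪ B) := by
  rintro ⟨M, hE, hF, c, hc, hi⟩
  have hI : ∀ X, M.Indep X ↔ X ∈ ex A B := fun X => by
    rw [← hF]
    exact Iff.rfl
  obtain ⟨b, hb⟩ := hB.nonempty
  obtain ⟨a, ha⟩ := hA.nonempty
  -- all of `B` has the colour of `b`
  have hBc : ∀ b' ∈ B, c b' = c b := by
    intro b' hb'
    by_contra hne
    have h1 : M.Indep {b, b'} := by
      apply hc
      · rw [hE]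
        exact insert_subset (mem_union_right A hb) (singleton_subset_iff.2 (mem_union_right A hb'))
      · intro i
        rw [hI]
        refine ⟨?_, ?_, ?_⟩
        · exact inter_subset_left.trans
            (insert_subset (mem_union_right A hb) (singleton_subset_iff.2 (mem_union_right A hb')))
        · rintro x ⟨⟨hx1, hx2⟩, -⟩ y ⟨⟨hy1, hy2⟩, -⟩
          have hx2' : c x = i := hx2
          have hy2' : c y = i := hy2
          rcases hx1 with rfl | hx1 <;> rcases hy1 with rfl | hy1
          · rfl
          · have : y = b' := hy1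
            subst this
            exact absurd (hy2'.trans hx2'.symm) hne
          · have : x = b' := hx1
            subst this
            exact absurd (hx2'.trans hy2'.symm) hne
          · exact (show x = b' from hx1).trans (show y = b' from hy1).symm
        · intro h
          exfalso
          have h2 := (h ha).1
          rcases h2 with h3 | h3
          · exact disjoint_left.1 hAB ha (h3 ▸ hb)
          · exact disjoint_left.1 hAB ha ((show a = b' from h3) ▸ hb')
    rw [hI] at h1
    have h2 := h1.2.1 ⟨mem_insert b _, hb⟩ ⟨mem_insert_of_mem b (mem_singleton b'), hb'⟩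
    exact hne (by rw [h2])
  -- all of `A` has the colour of `b`
  have hAc : ∀ a' ∈ A, c a' = c b := by
    intro a' ha'
    by_contra hne
    have hsub : insert b A ⊆ A ∪ B := insert_subset (mem_union_right A hb) subset_union_left
    have h1 : M.Indep (insert b A) := by
      apply hc
      · rw [hE]
        exact hsub
      · intro i
        rw [hI]
        by_cases hib : c b = i
        · apply ex_down (X := insert b (A \ {a'}))
            (ex_insert hAB sdiff_subset ha' (fun h => h.2 rfl) hb)
          rintro x ⟨hx1 | hx1, hx2⟩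
          · exact Or.inl hx1
          · refine Or.inr ⟨hx1, fun h => ?_⟩
            have h3 : x = a' := h
            have h4 : c x = i := hx2
            rw [h3] at h4
            exact hne (h4.trans hib.symm)
        · apply ex_of_subset hAB
          rintro x ⟨hx1 | hx1, hx2⟩
          · exfalso
            have h3 : x = b := hx1
            have h4 : c x = i := hx2
            rw [h3] at h4
            exact hib h4
          · exact hx1
    rw [hI] at h1
    have h2 := h1.2.2 (subset_insert _ _)
    have h3 : b ∈ insert b A ∩ B := ⟨mem_insert _ _, hb⟩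
    rw [h2] at h3
    exact h3
  have hall : M.E ∩ c ⁻¹' {c b} = M.E := by
    apply inter_eq_left.2
    intro x hx
    rw [hE] at hx
    rcases hx with h | h
    · exact hAc x h
    · exact hBc x h
  have hfc := hi (c b)
  rw [hall, restrict_ground_eq_self] at hfc
  rcases hfc with hfin | hfin
  · -- not finitary
    have h1 : M.Indep (insert b A) := by
      apply hfin.indep_of_forall_finite
      intro J hJ hJf
      rw [hI]
      have hAJ : ¬ A ⊆ J := fun h => hA (hJf.subset h)
      obtain ⟨a', ha', haJ⟩ := not_subset.1 hAJ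
      apply ex_down (X := insert b (A \ {a'}))
        (ex_insert hAB sdiff_subset ha' (fun h => h.2 rfl) hb)
      intro x hx
      rcases hJ hx with h | h
      · exact Or.inl h
      · exact Or.inr ⟨h, fun h' => haJ ((show x = a' from h') ▸ hx)⟩
    rw [hI] at h1
    have h2 := h1.2.2 (subset_insert _ _)
    have h3 : b ∈ insert b A ∩ B := ⟨mem_insert _ _, hb⟩
    rw [h2] at h3
    exact h3
  · -- not cofinitary
    have hbase : ∀ b' ∈ B, M.IsBase (insert b' (A \ {a})) := by
      intro b' hb'
      have h1 : insert b' (A \ {a}) ∈ bases (restriction (fam M) M.E) := by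
        rw [hF, hE, ex_bases hAB subset_rfl]
        right; right; right
        exact ⟨subset_union_left, b', ⟨mem_union_right A hb', hb'⟩, a, ha, rfl⟩
      rw [bases_restriction_fam M subset_rfl] at h1
      exact isBasis_ground_iff.1 h1
    have h1 : M✶.Indep (insert a B) := by
      apply hfin.indep_of_forall_finite
      intro J hJ hJf
      rw [dual_indep_iff_exists']
      refine ⟨?_, ?_⟩
      · rw [hE]
        exact hJ.trans (insert_subset (mem_union_left B ha) subset_union_right)
      · obtain ⟨b', hb', hbJ⟩ := not_subset.1 (fun h : B ⊆ J => hB (hJf.subset h))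
        refine ⟨_, hbase b' hb', ?_⟩
        rw [disjoint_left]
        intro x hx hx'
        rcases hx' with h | h
        · exact hbJ ((show x = b' from h) ▸ hx)
        · rcases hJ hx with h2 | h2
          · exact h.2 h2
          · exact disjoint_left.1 hAB h.1 h2
    rw [dual_indep_iff_exists'] at h1
    obtain ⟨-, B₀, hB₀, hd⟩ := h1
    have h2 : B₀ ⊆ A \ {a} := by
      intro x hx
      have hx' := hB₀.subset_ground hx
      rw [hE] at hx'
      rcases hx' with h | h
      · exact ⟨h, fun h' => disjoint_left.1 hd (show x ∈ insert a B from Or.inl h') hx⟩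
      · exact absurd hx (disjoint_left.1 hd (mem_insert_of_mem a h))
    have h3 : M.Indep A := by
      rw [hI]
      exact ex_of_subset hAB subset_rfl
    have h4 := hB₀.eq_of_subset_indep h3 (h2.trans sdiff_subset)
    rw [h4] at h2
    exact (h2 ha).2 rfl

/-- **Disproof.** For every infinite set `S` there is an admissible system containing all
independence spaces, closed under direct sums and isomorphism, which does not contain all
B-matroids. -/
theorem main (S : Type u) [Infinite S] : ∃ D : Set S → Set (Set (Set S)),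
    IsAdmissible D ∧ (∀ W I, IsIndependenceSpace W I → I ∈ D W) ∧
    ClosedUnderDirectSums D ∧ ClosedUnderIsomorphism D ∧
    ∃ W I, IsBMatroid W I ∧ I ∉ D W := by
  refine ⟨sys, sys_admissible, fun W I h => sys_indepSpace h, sys_sum, sys_iso, ?_⟩
  let f : ℕ ↪ S := Infinite.natEmbedding S
  let A : Set S := range fun n => f (2 * n)
  let B : Set S := range fun n => f (2 * n + 1)
  have hAB : Disjoint A B := by
    rw [disjoint_left]
    rintro _ ⟨m, rfl⟩ ⟨n, hn⟩
    have := f.injective hn
    omega
  have hA : A.Infinite := infinite_range_of_injective fun m n h => by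
    have := f.injective h
    omega
  have hB : B.Infinite := infinite_range_of_injective fun m n h => by
    have := f.injective h
    omega
  exact ⟨A ∪ B, ex A B, ex_bmatroid hAB hA.nonempty, ex_not_mem hAB hA hB⟩

end Pool.Agent.Y338.Adm
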