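import Pool.Agent.Y338.AdmDefs

/-!
# Admissible systems: translation to Mathlib matroids
-/

set_option autoImplicit false

universe u

namespace Pool.Agent.Y338.Adm

open Matroid Set

variable {S : Type u}

/-- the family of independent sets of a matroid -/
def fam (M : Matroid S) : Set (Set S) := {X | M.Indep X}

theorem mem_fam {M : Matroid S} {X : Set S} : X ∈ fam M ↔ M.Indep X := Iff.rfl

theorem fam_inj {M N : Matroid S} (hE : M.E = N.E) (h : fam M = fam N) : M = N :=
  ext_indep hE (fun I _ => by
    have := Set.ext_iff.1 h I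
    exact this)

theorem fam_pre (M : Matroid S) : IsPreIndependenceSpace M.E (fam M) where
  ground X hX := Indep.subset_ground hX
  empty := M.empty_indep
  subset X hX Y hY := Indep.subset hX hY
  augment I₁ h₁ I₂ h₂ hf₁ hf₂ hc := by
    have hlt : I₁.encard < I₂.encard := by
      rw [← hf₁.cast_ncard_eq, ← hf₂.cast_ncard_eq]
      exact_mod_cast hc
    obtain ⟨e, he, hi⟩ := Indep.augment h₁ h₂ hlt
    refine ⟨e, he, ?_⟩
    rw [union_singleton]
    exact hi

theorem restriction_fam (M : Matroid S) (Z : Set S) : restriction (fam M) Z = fam (M ↾ Z) := by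
  ext X
  simp only [restriction, mem_ofPred_eq, mem_fam, restrict_indep_iff]
  tauto

theorem bases_fam (M : Matroid S) : bases (fam M) = {B | M.IsBase B} := by
  ext B
  simp only [bases, mem_ofPred_eq, mem_fam, isBase_iff_maximal_indep]

theorem bases_restriction_fam (M : Matroid S) {X : Set S} (hX : X ⊆ M.E) (B : Set S) :
    B ∈ bases (restriction (fam M) X) ↔ M.IsBasis B X := by
  rw [restriction_fam, bases_fam, mem_ofPred_eq, isBase_restrict_iff hX]

theorem contraction_fam (M : Matroid S) {Z : Set S} {B : Set S}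
    (hB : M.IsBasis B (M.E \ Z)) : contraction (fam M) Z B = fam (M ／ (M.E \ Z)) := by
  ext X
  simp only [contraction, mem_ofPred_eq, mem_fam, hB.contract_indep_iff]
  constructor
  · rintro ⟨h1, h2⟩
    exact ⟨h2, disjoint_left.2 fun x hx1 hx2 => hx1.2 (h1 hx2)⟩
  · rintro ⟨h1, h2⟩
    refine ⟨fun x hx => ?_, h1⟩
    by_contra hxZ
    exact disjoint_left.1 h2 ⟨h1.subset_ground (Or.inl hx), hxZ⟩ hx

theorem dual_fam (M : Matroid S) : dual M.E (fam M) = fam M✶ := by
  ext X
  simp only [dual, mem_ofPred_eq, mem_fam, bases_fam, dual_indep_iff_exists']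
  refine and_congr_right fun hX => exists_congr fun B => and_congr_right fun hB => ?_
  constructor
  · intro h
    exact disjoint_left.2 fun x hx1 hx2 => (h hx2).2 hx1
  · intro h x hx
    exact ⟨hB.subset_ground hx, fun hx' => disjoint_left.1 h hx' hx⟩

/-- every B-matroid is the family of independent sets of a Mathlib matroid -/
theorem exists_matroid {W : Set S} {I : Set (Set S)} (h : IsBMatroid W I) :
    ∃ M : Matroid S, M.E = W ∧ fam M = I := by
  have hres : restriction I W = I := by
    ext X
    simp only [restriction, mem_ofPred_eq]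
    exact ⟨fun h1 => h1.2, fun h1 => ⟨h.ground X h1, h1⟩⟩
  have hb : ∀ X, (fun Y => Y ∈ restriction I X) = (fun Y => Y ∈ I ∧ Y ⊆ X) := by
    intro X
    funext Y
    simp only [restriction, mem_ofPred_eq, eq_iff_iff]
    tauto
  refine ⟨{ E := W
            IsBase := fun B => B ∈ bases I
            Indep := fun X => X ∈ I
            indep_iff' := ?_
            exists_isBase := ?_
            isBase_exchange := ?_
            maximality := ?_
            subset_ground := ?_ }, rfl, rfl⟩
  · intro X
    constructor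
    · intro hX
      obtain ⟨B, hB, hXB⟩ := h.ib1 W subset_rfl X hX (h.ground X hX)
      rw [hres] at hB
      exact ⟨B, hB, hXB⟩
    · rintro ⟨B, hB, hXB⟩
      exact h.subset B hB.1 X hXB
  · obtain ⟨B, hB, -⟩ := h.ib1 W subset_rfl ∅ h.empty (empty_subset _)
    rw [hres] at hB
    exact ⟨B, hB⟩
  · intro B₁ B₂ h₁ h₂ x hx
    have := h.ib2 W subset_rfl B₁ (by rw [hres]; exact h₁) B₂ (by rw [hres]; exact h₂) x hx
    obtain ⟨y, hy, hy'⟩ := this
    rw [hres] at hy'
    refine ⟨y, hy, ?_⟩
    have e : insert y (B₁ \ {x}) = B₁ \ {x} ∪ {y} := by rw [union_singleton]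
    rw [e]
    exact hy'
  · intro X hX T hT hTX
    obtain ⟨B, hB, hTB⟩ := h.ib1 X hX T hT hTX
    refine ⟨B, hTB, ?_⟩
    have h1 : Maximal (fun Y => Y ∈ restriction I X) B := hB
    rw [hb X] at h1
    exact h1
  · intro B hB
    exact h.ground B hB.1

/-- the family of independent sets of a matroid is a B-matroid -/
theorem fam_bmatroid (M : Matroid S) : IsBMatroid M.E (fam M) where
  ground X hX := Indep.subset_ground hX
  empty := M.empty_indep
  subset X hX Y hY := Indep.subset hX hY
  ib1 X hX T hT hTX := by
    obtain ⟨B, hB, hTB⟩ := Indep.subset_isBasis_of_subset hT hTX hX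
    exact ⟨B, (bases_restriction_fam M hX B).2 hB, hTB⟩
  ib2 X hX B₁ h₁ B₂ h₂ x hx := by
    rw [restriction_fam, bases_fam] at h₁ h₂
    have h₁' : (M ↾ X).IsBase B₁ := h₁
    have h₂' : (M ↾ X).IsBase B₂ := h₂
    obtain ⟨y, hy, hy'⟩ := h₁'.exchange h₂' hx
    refine ⟨y, hy, ?_⟩
    rw [restriction_fam, bases_fam, union_singleton]
    exact hy'

/-- every independence space is the family of independent sets of a finitary matroid -/
theorem exists_finitary {W : Set S} {I : Set (Set S)} (h : IsIndependenceSpace W I) :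
    ∃ M : Matroid S, M.E = W ∧ fam M = I ∧ M.Finitary := by
  let N : IndepMatroid S := IndepMatroid.ofFinitaryCardAugment W (fun X => X ∈ I) h.1.empty
    (fun X Y hY hXY => h.1.subset Y hY X hXY)
    (fun X Y hX hXf hY hYf hc => by
      obtain ⟨e, he, hi⟩ := h.1.augment X hX Y hY hXf hYf hc
      rw [union_singleton] at hi
      exact ⟨e, he.1, he.2, hi⟩)
    (fun X hX => by
      apply h.2 X
      · intro x hx
        have := h.1.ground {x} (hX {x} (singleton_subset_iff.2 hx) (finite_singleton x))
        exact this rfl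
      · intro F hF hFf
        exact hX F hF hFf)
    (fun X hX => h.1.ground X hX)
  refine ⟨N.matroid, rfl, rfl, ?_⟩
  infer_instance

end Pool.Agent.Y338.Adm
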