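import Pool.Agent.Y338.AdmBridge

/-!
# Admissible systems: direct sums of finitary and cofinitary matroids
-/

set_option autoImplicit false

universe u

namespace Pool.Agent.Y338.Adm

open Matroid Set

variable {S : Type u}

/-- `M` is the direct sum of its restrictions to the colour classes of `c`. -/
def Sep (M : Matroid S) (c : S → S) : Prop :=
  ∀ X, X ⊆ M.E → (∀ i, M.Indep (X ∩ c ⁻¹' {i})) → M.Indep X

/-- finitary or cofinitary -/
def Fc (M : Matroid S) : Prop := M.Finitary ∨ M✶.Finitary

/-- `M` is a direct sum of finitary and cofinitary matroids -/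
def Good (M : Matroid S) : Prop :=
  ∃ c : S → S, Sep M c ∧ ∀ i, Fc (M ↾ (M.E ∩ c ⁻¹' {i}))

theorem Fc.dual {M : Matroid S} (h : Fc M) : Fc M✶ := by
  rcases h with h | h
  · exact Or.inr (by rw [dual_dual]; exact h)
  · exact Or.inl h

theorem Fc.restrict {M : Matroid S} (h : Fc M) {R : Set S} (hR : R ⊆ M.E) : Fc (M ↾ R) := by
  rcases h with h | h
  · exact Or.inl (by infer_instance)
  · refine Or.inr ?_
    have e : (M ↾ R) = M ＼ (M.E \ R) := by
      rw [delete_compl hR]
    rw [e, dual_delete]
    infer_instance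

theorem indep_iff_of_sep {M : Matroid S} {c : S → S} (h : Sep M c) {X : Set S} (hX : X ⊆ M.E) :
    M.Indep X ↔ ∀ i, M.Indep (X ∩ c ⁻¹' {i}) :=
  ⟨fun h1 i => h1.subset inter_subset_left, h X hX⟩

/-- pieces of a base -/
theorem base_piece {M : Matroid S} {c : S → S} (h : Sep M c) {B : Set S} (hB : M.IsBase B) (i : S) :
    M.IsBasis (B ∩ c ⁻¹' {i}) (M.E ∩ c ⁻¹' {i}) := by
  rw [isBasis_iff]
  refine ⟨hB.indep.subset inter_subset_left, inter_subset_inter_left _ hB.subset_ground, ?_⟩
  intro J hJ hBJ hJE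
  apply hBJ.antisymm
  intro x hx
  have hxi : c x = i := (hJE hx).2
  have h1 : M.Indep (B ∪ J) := by
    apply h _ (union_subset hB.subset_ground (fun y hy => (hJE hy).1))
    intro j
    by_cases hj : j = i
    · subst hj
      have : (B ∪ J) ∩ c ⁻¹' {j} = J := by
        ext y
        constructor
        · rintro ⟨hy1 | hy1, hy2⟩
          · exact hBJ ⟨hy1, hy2⟩
          · exact hy1
        · intro hy
          exact ⟨Or.inr hy, (hJE hy).2⟩
      rw [this]
      exact hJ
    · have : (B ∪ J) ∩ c ⁻¹' {j} = B ∩ c ⁻¹' {j} := by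
        ext y
        constructor
        · rintro ⟨hy1 | hy1, hy2⟩
          · exact ⟨hy1, hy2⟩
          · exfalso
            have h2 : c y = i := (hJE hy1).2
            have h3 : c y = j := hy2
            exact hj (h3.symm.trans h2)
        · rintro ⟨hy1, hy2⟩
          exact ⟨Or.inl hy1, hy2⟩
      rw [this]
      exact hB.indep.subset inter_subset_left
  have h2 : B = B ∪ J := hB.eq_of_subset_indep h1 subset_union_left
  exact ⟨by rw [h2]; exact Or.inr hx, hxi⟩

/-- glueing bases of the pieces -/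
theorem base_of_pieces {M : Matroid S} {c : S → S} (h : Sep M c) {B : Set S} (hBE : B ⊆ M.E)
    (hB : ∀ i, M.IsBasis (B ∩ c ⁻¹' {i}) (M.E ∩ c ⁻¹' {i})) : M.IsBase B := by
  rw [isBase_iff_maximal_indep]
  refine ⟨h B hBE fun i => (hB i).indep, ?_⟩
  intro J hJ hBJ x hx
  have h1 : B ∩ c ⁻¹' {c x} = J ∩ c ⁻¹' {c x} :=
    (hB (c x)).eq_of_subset_indep (Indep.subset hJ inter_subset_left)
      (inter_subset_inter_left _ hBJ) (inter_subset_inter_left _ (Indep.subset_ground hJ))
  have h2 : x ∈ J ∩ c ⁻¹' {c x} := ⟨hx, rfl⟩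
  rw [← h1] at h2
  exact h2.1

/-- the dual of a separated matroid is separated -/
theorem Sep.dual {M : Matroid S} {c : S → S} (h : Sep M c) : Sep M✶ c := by
  intro X hX hi
  rw [dual_ground] at hX
  rw [dual_indep_iff_exists']
  refine ⟨hX, ?_⟩
  have h1 : ∀ i, ∃ B, M.IsBase B ∧ Disjoint (X ∩ c ⁻¹' {i}) B := fun i =>
    (dual_indep_iff_exists'.1 (hi i)).2
  choose B hB hd using h1
  refine ⟨{x | x ∈ B (c x)}, ?_, ?_⟩
  · apply base_of_pieces h
    · intro x hx
      exact (hB (c x)).subset_ground hx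
    · intro i
      have e : {x | x ∈ B (c x)} ∩ c ⁻¹' {i} = B i ∩ c ⁻¹' {i} := by
        ext x
        constructor
        · rintro ⟨h1, h2⟩
          have h3 : c x = i := h2
          have h4 : x ∈ B (c x) := h1
          rw [h3] at h4
          exact ⟨h4, h2⟩
        · rintro ⟨h1, h2⟩
          have h3 : c x = i := h2
          refine ⟨?_, h2⟩
          show x ∈ B (c x)
          rw [h3]
          exact h1
      rw [e]
      exact base_piece h (hB i) i
  · rw [disjoint_left]
    intro x hx hx'
    exact disjoint_left.1 (hd (c x)) ⟨hx, rfl⟩ hx'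

/-- restriction to a colour class commutes with duality -/
theorem dual_piece {M : Matroid S} {c : S → S} (h : Sep M c) (i : S) :
    (M✶ ↾ (M.E ∩ c ⁻¹' {i})) = (M ↾ (M.E ∩ c ⁻¹' {i}))✶ := by
  apply ext_indep (by rw [restrict_ground_eq, dual_ground, restrict_ground_eq])
  intro X hX
  rw [restrict_ground_eq] at hX
  rw [restrict_indep_iff, dual_indep_iff_exists', dual_indep_iff_exists']
  constructor
  · rintro ⟨⟨h1, B, hB, hd⟩, h2⟩
    refine ⟨hX, B ∩ c ⁻¹' {i}, ?_, hd.mono_right inter_subset_left⟩
    rw [isBase_restrict_iff inter_subset_left]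
    exact base_piece h hB i
  · rintro ⟨h1, B, hB, hd⟩
    rw [isBase_restrict_iff inter_subset_left] at hB
    refine ⟨⟨hX.trans inter_subset_left, ?_⟩, hX⟩
    obtain ⟨B', hB'⟩ := M.exists_isBase
    refine ⟨B ∪ (B' \ c ⁻¹' {i}), ?_, ?_⟩
    · apply base_of_pieces h (union_subset hB.indep.subset_ground
        (sdiff_subset.trans hB'.subset_ground))
      intro j
      by_cases hj : j = i
      · subst hj
        have e : (B ∪ (B' \ c ⁻¹' {j})) ∩ c ⁻¹' {j} = B := by
          ext x
          constructor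
          · rintro ⟨h1 | h1, h2⟩
            · exact h1
            · exact absurd h2 h1.2
          · intro hx
            exact ⟨Or.inl hx, (hB.subset hx).2⟩
        rw [e]
        exact hB
      · have e : (B ∪ (B' \ c ⁻¹' {i})) ∩ c ⁻¹' {j} = B' ∩ c ⁻¹' {j} := by
          ext x
          constructor
          · rintro ⟨h1 | h1, h2⟩
            · exfalso
              have h3 : c x = i := (hB.subset h1).2
              have h4 : c x = j := h2
              exact hj (h4.symm.trans h3)
            · exact ⟨h1.1, h2⟩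
          · rintro ⟨h1, h2⟩
            refine ⟨Or.inr ⟨h1, fun h3 => ?_⟩, h2⟩
            have h3' : c x = i := h3
            have h4 : c x = j := h2
            exact hj (h4.symm.trans h3')
        rw [e]
        exact base_piece h hB' j
    · rw [disjoint_left]
      rintro x hx (hx' | hx')
      · exact disjoint_left.1 hd hx hx'
      · exact hx'.2 (hX hx).2

theorem Good.dual {M : Matroid S} (h : Good M) : Good M✶ := by
  obtain ⟨c, hc, hi⟩ := h
  refine ⟨c, hc.dual, fun i => ?_⟩
  rw [dual_ground, dual_piece hc i]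
  exact (hi i).dual

theorem Good.restrict {M : Matroid S} (h : Good M) {R : Set S} (hR : R ⊆ M.E) : Good (M ↾ R) := by
  obtain ⟨c, hc, hi⟩ := h
  refine ⟨c, ?_, fun i => ?_⟩
  · intro X hX h1
    rw [restrict_ground_eq] at hX
    rw [restrict_indep_iff]
    refine ⟨hc X (hX.trans hR) fun i => (restrict_indep_iff.1 (h1 i)).1, hX⟩
  · rw [restrict_ground_eq]
    have e : ((M ↾ R) ↾ (R ∩ c ⁻¹' {i})) = (M ↾ (M.E ∩ c ⁻¹' {i})) ↾ (R ∩ c ⁻¹' {i}) := by
      rw [restrict_restrict_eq _ inter_subset_left,
        restrict_restrict_eq _ (inter_subset_inter_left _ hR)]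
    rw [e]
    exact (hi i).restrict (inter_subset_inter_left _ hR)

theorem Good.contract {M : Matroid S} (h : Good M) {C : Set S} (_hC : C ⊆ M.E) :
    Good (M ／ C) := by
  rw [← dual_delete_dual]
  apply Good.dual
  rw [delete_eq_restrict]
  exact h.dual.restrict sdiff_subset

end Pool.Agent.Y338.Adm
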