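import Mathlib

/-!
# Admissible systems of pre-independence spaces (MP_cb2a9f_co): definitions
-/

set_option autoImplicit false

universe u

namespace Pool.Agent.Y338.Adm

variable {S : Type u}

/-- `I` is a pre-independence space on `W`: it is a family of subsets of `W`, contains `∅`, is
closed under subsets, and satisfies the augmentation axiom for finite members. -/
structure IsPreIndependenceSpace (W : Set S) (I : Set (Set S)) : Prop where
  ground : ∀ X ∈ I, X ⊆ W
  empty : ∅ ∈ I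
  subset : ∀ X ∈ I, ∀ Y ⊆ X, Y ∈ I
  augment : ∀ I₁ ∈ I, ∀ I₂ ∈ I, I₁.Finite → I₂.Finite → I₁.ncard < I₂.ncard →
    ∃ e ∈ I₂ \ I₁, I₁ ∪ {e} ∈ I

/-- `I` is an independence space on `W`: a pre-independence space that contains every set `Y ⊆ W`
all of whose finite subsets are in `I`. -/
def IsIndependenceSpace (W : Set S) (I : Set (Set S)) : Prop :=
  IsPreIndependenceSpace W I ∧ ∀ Y ⊆ W, (∀ F ⊆ Y, F.Finite → F ∈ I) → Y ∈ I

/-- the bases of `I`: its maximal members -/
def bases (I : Set (Set S)) : Set (Set S) := {B | Maximal (fun Y => Y ∈ I) B}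

/-- the restriction `I | Z` -/
def restriction (I : Set (Set S)) (Z : Set S) : Set (Set S) := {Y | Y ⊆ Z ∧ Y ∈ I}

/-- `{Y ⊆ Z : Y ∪ B ∈ I}`, the contraction `I . Z` if `B` is a basis of `I | (W \ Z)` -/
def contraction (I : Set (Set S)) (Z B : Set S) : Set (Set S) := {Y | Y ⊆ Z ∧ Y ∪ B ∈ I}

/-- the dual: the sets `X ⊆ W` whose complement in `W` contains a basis of `I` -/
def dual (W : Set S) (I : Set (Set S)) : Set (Set S) := {X | X ⊆ W ∧ ∃ B ∈ bases I, B ⊆ W \ X}

/-- `I` is a B-matroid on `W` -/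
structure IsBMatroid (W : Set S) (I : Set (Set S)) : Prop where
  ground : ∀ X ∈ I, X ⊆ W
  empty : ∅ ∈ I
  subset : ∀ X ∈ I, ∀ Y ⊆ X, Y ∈ I
  ib1 : ∀ X ⊆ W, ∀ T ∈ I, T ⊆ X → ∃ B ∈ bases (restriction I X), T ⊆ B
  ib2 : ∀ X ⊆ W, ∀ B₁ ∈ bases (restriction I X), ∀ B₂ ∈ bases (restriction I X),
    ∀ x ∈ B₁ \ B₂, ∃ y ∈ B₂ \ B₁, (B₁ \ {x}) ∪ {y} ∈ bases (restriction I X)

/-- `D` is an admissible system: every `D W` consists of pre-independence spaces on `W`;
restrictions to `Z ⊆ W` lie in `D Z`; contractions to `Z` are well defined (a basis of `I|(W \ Z)`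
exists and the contraction does not depend on it) and lie in `D Z`; duality maps `D W` into itself
and is an involution there. -/
structure IsAdmissible (D : Set S → Set (Set (Set S))) : Prop where
  pre : ∀ W, ∀ I ∈ D W, IsPreIndependenceSpace W I
  restriction_mem : ∀ W Z, Z ⊆ W → ∀ I ∈ D W, restriction I Z ∈ D Z
  exists_basis : ∀ W Z, Z ⊆ W → ∀ I ∈ D W, ∃ B, B ∈ bases (restriction I (W \ Z))
  contraction_eq : ∀ W Z, Z ⊆ W → ∀ I ∈ D W, ∀ B ∈ bases (restriction I (W \ Z)),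
    ∀ B' ∈ bases (restriction I (W \ Z)), contraction I Z B = contraction I Z B'
  contraction_mem : ∀ W Z, Z ⊆ W → ∀ I ∈ D W, ∀ B ∈ bases (restriction I (W \ Z)),
    contraction I Z B ∈ D Z
  dual_mem : ∀ W, ∀ I ∈ D W, dual W I ∈ D W
  dual_dual : ∀ W, ∀ I ∈ D W, dual W (dual W I) = I

/-- `D` is closed under direct sums: if `c` splits `W` into the parts `W ∩ c ⁻¹ {i}` and `J i` is in
`D` for the `i`-th part, the direct sum of all the `J i` is in `D W`. -/
def ClosedUnderDirectSums (D : Set S → Set (Set (Set S))) : Prop :=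
  ∀ (W : Set S) (c : S → S) (J : S → Set (Set S)), (∀ i, J i ∈ D (W ∩ c ⁻¹' {i})) →
    {X | X ⊆ W ∧ ∀ i, X ∩ c ⁻¹' {i} ∈ J i} ∈ D W

/-- `D` is closed under isomorphism: for every injection `f` of `W` into `S` and every `I` in `D W`
the image of `I` under `f` is in `D (f W)`. -/
def ClosedUnderIsomorphism (D : Set S → Set (Set (Set S))) : Prop :=
  ∀ (W : Set S) (f : S → S), Set.InjOn f W → ∀ I ∈ D W, {Y | ∃ X ∈ I, Y = f '' X} ∈ D (f '' W)

end Pool.Agent.Y338.Adm
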