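import Pool.Agent.Y338.AdmClass

/-!
# Admissible systems: closure of the class under direct sums and isomorphism
-/

set_option autoImplicit false

universe u

namespace Pool.Agent.Y338.Adm

open Matroid Set

variable {S : Type u}

theorem fc_empty (M : Matroid S) {R : Set S} (hR : R = ∅) : Fc (M ↾ R) := by
  subst hR
  rw [restrict_empty]
  exact Or.inl (by infer_instance)

theorem good_of_fc {M : Matroid S} (h : Fc M) (hne : Nonempty S) : Good M := by
  obtain ⟨s⟩ := hne
  refine ⟨fun _ => s, ?_, fun i => ?_⟩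
  · intro X _ h1
    have h2 := h1 s
    have e : X ∩ (fun _ : S => s) ⁻¹' {s} = X := by
      ext x; simp
    rwa [e] at h2
  · exact h.restrict inter_subset_left

/-- direct sums -/
theorem good_sum [Infinite S] {W : Set S} {c : S → S} {M : S → Matroid S}
    (hE : ∀ i, (M i).E = W ∩ c ⁻¹' {i}) (hG : ∀ i, Good (M i)) :
    ∃ N : Matroid S, N.E = W ∧ Good N ∧
      ∀ X, N.Indep X ↔ X ⊆ W ∧ ∀ i, (M i).Indep (X ∩ c ⁻¹' {i}) := by
  have hdisj : Pairwise (Function.onFun Disjoint fun i => (M i).E) := by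
    intro i j hij
    show Disjoint (M i).E (M j).E
    rw [hE, hE, disjoint_left]
    rintro x ⟨_, hx⟩ ⟨_, hx'⟩
    have h1 : c x = i := hx
    have h2 : c x = j := hx'
    exact hij (h1.symm.trans h2)
  let N := Matroid.disjointSigma M hdisj
  have hU : (⋃ i, (M i).E) = W := by
    ext x
    simp only [mem_iUnion, hE]
    constructor
    · rintro ⟨i, hx⟩
      exact hx.1
    · intro hx
      exact ⟨c x, hx, rfl⟩
  have hNE : N.E = W := disjointSigma_ground_eq.trans hU
  have hNI : ∀ X, N.Indep X ↔ X ⊆ W ∧ ∀ i, (M i).Indep (X ∩ c ⁻¹' {i}) := by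
    intro X
    have h1 : N.Indep X ↔ (∀ i, (M i).Indep (X ∩ (M i).E)) ∧ X ⊆ ⋃ i, (M i).E :=
      disjointSigma_indep_iff
    rw [h1, hU, and_comm]
    refine and_congr_right fun hX => forall_congr' fun i => ?_
    have e : X ∩ (M i).E = X ∩ c ⁻¹' {i} := by
      rw [hE]
      ext x
      constructor
      · rintro ⟨h1, h2⟩
        exact ⟨h1, h2.2⟩
      · rintro ⟨h1, h2⟩
        exact ⟨h1, hX h1, h2⟩
    rw [e]
  refine ⟨N, hNE, ?_, hNI⟩
  choose d hd hdf using hG
  have hcard : Nonempty (S × S ≃ S) := by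
    have h1 : Cardinal.mk (S × S) = Cardinal.mk S := by
      rw [Cardinal.mk_prod, Cardinal.lift_id,
        Cardinal.mul_eq_self (Cardinal.aleph0_le_mk S)]
    exact Cardinal.eq.1 h1
  obtain ⟨p⟩ := hcard
  refine ⟨fun x => p (c x, d (c x) x), ?_, ?_⟩
  · intro X hX h1
    rw [hNE] at hX
    rw [hNI]
    refine ⟨hX, fun i => ?_⟩
    apply hd i
    · rw [hE]
      exact inter_subset_inter_left _ hX
    · intro j
      have h2 := ((hNI _).1 (h1 (p (i, j)))).2 i
      convert h2 using 1
      ext x
      constructor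
      · rintro ⟨⟨hx1, hx2⟩, hx3⟩
        have hx2' : c x = i := hx2
        have hx3' : d i x = j := hx3
        refine ⟨⟨hx1, ?_⟩, hx2⟩
        show p (c x, d (c x) x) = p (i, j)
        rw [hx2', hx3']
      · rintro ⟨⟨hx1, hx2⟩, hx3⟩
        have hx2' : p (c x, d (c x) x) = p (i, j) := hx2
        have hx3' : c x = i := hx3
        have h3 := p.injective hx2'
        rw [Prod.mk.injEq, hx3'] at h3
        exact ⟨⟨hx1, hx3⟩, h3.2⟩
  · intro k
    obtain ⟨⟨i, j⟩, rfl⟩ := p.surjective k
    have e1 : N.E ∩ (fun x => p (c x, d (c x) x)) ⁻¹' {p (i, j)} =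
        (M i).E ∩ d i ⁻¹' {j} := by
      rw [hNE, hE]
      ext x
      constructor
      · rintro ⟨hx1, hx2⟩
        have hx2' : p (c x, d (c x) x) = p (i, j) := hx2
        have h3 := p.injective hx2'
        rw [Prod.mk.injEq] at h3
        refine ⟨⟨hx1, h3.1⟩, ?_⟩
        show d i x = j
        rw [← h3.1]
        exact h3.2
      · rintro ⟨⟨hx1, hx2⟩, hx3⟩
        have hx2' : c x = i := hx2
        have hx3' : d i x = j := hx3
        refine ⟨hx1, ?_⟩
        show p (c x, d (c x) x) = p (i, j)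
        rw [hx2', hx3']
    have e2 : (N ↾ (N.E ∩ (fun x => p (c x, d (c x) x)) ⁻¹' {p (i, j)})) =
        (M i) ↾ ((M i).E ∩ d i ⁻¹' {j}) := by
      rw [e1]
      apply ext_indep (by rw [restrict_ground_eq, restrict_ground_eq])
      intro X hX
      rw [restrict_ground_eq] at hX
      rw [restrict_indep_iff, restrict_indep_iff, hNI]
      have hXi : X ⊆ c ⁻¹' {i} := fun x hx => by
        have := (hX hx).1
        rw [hE] at this
        exact this.2
      have hXW : X ⊆ W := fun x hx => by
        have := (hX hx).1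
        rw [hE] at this
        exact this.1
      constructor
      · rintro ⟨⟨_, h1⟩, h2⟩
        have h3 := h1 i
        rw [inter_eq_left.2 hXi] at h3
        exact ⟨h3, h2⟩
      · rintro ⟨h1, h2⟩
        refine ⟨⟨hXW, fun i' => ?_⟩, h2⟩
        by_cases hi : i' = i
        · subst hi
          rw [inter_eq_left.2 hXi]
          exact h1
        · have : X ∩ c ⁻¹' {i'} = ∅ := by
            rw [eq_empty_iff_forall_notMem]
            rintro x ⟨hx1, hx2⟩
            have h3 : c x = i := hXi hx1
            have h4 : c x = i' := hx2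
            exact hi (h4.symm.trans h3)
          rw [this]
          exact (M i').empty_indep
    rw [e2]
    exact hdf i j

theorem Fc.map {M : Matroid S} (h : Fc M) {f : S → S} (hf : InjOn f M.E) : Fc (M.map f hf) := by
  rcases h with h | h
  · exact Or.inl (by infer_instance)
  · refine Or.inr ?_
    rw [map_dual]
    have : (M✶).Finitary := h
    exact (inferInstance : (M✶.map f (by rw [dual_ground]; exact hf)).Finitary)

/-- isomorphic copies -/
theorem Good.map [Nonempty S] {M : Matroid S} (h : Good M) {f : S → S} (hf : InjOn f M.E) :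
    Good (M.map f hf) := by
  obtain ⟨c, hc, hi⟩ := h
  let g := Function.invFunOn f M.E
  have hg : ∀ x ∈ M.E, g (f x) = x := hf.leftInvOn_invFunOn
  have hpre : ∀ X ⊆ M.E, ∀ i, f '' X ∩ (fun y => c (g y)) ⁻¹' {i} = f '' (X ∩ c ⁻¹' {i}) := by
    intro X hX i
    ext y
    constructor
    · rintro ⟨⟨x, hx, rfl⟩, h2⟩
      have h2' : c (g (f x)) = i := h2
      rw [hg x (hX hx)] at h2'
      exact ⟨x, ⟨hx, h2'⟩, rfl⟩
    · rintro ⟨x, ⟨hx, h2⟩, rfl⟩
      refine ⟨⟨x, hx, rfl⟩, ?_⟩
      show c (g (f x)) = i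
      rw [hg x (hX hx)]
      exact h2
  refine ⟨fun y => c (g y), ?_, fun i => ?_⟩
  · intro Y hY h1
    rw [map_ground] at hY
    obtain ⟨X, hX, rfl⟩ := subset_image_iff.1 hY
    rw [map_image_indep_iff hX]
    apply hc X hX
    intro i
    have h2 := h1 i
    rw [hpre X hX, map_image_indep_iff (inter_subset_left.trans hX)] at h2
    exact h2
  · have hf' : InjOn f (M ↾ (M.E ∩ c ⁻¹' {i})).E := hf.mono inter_subset_left
    have e : ((M.map f hf) ↾ ((M.map f hf).E ∩ (fun y => c (g y)) ⁻¹' {i})) =
        (M ↾ (M.E ∩ c ⁻¹' {i})).map f hf' := by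
      rw [map_ground, hpre M.E subset_rfl]
      apply ext_indep (by rw [restrict_ground_eq, map_ground, restrict_ground_eq])
      intro Y hY
      rw [restrict_ground_eq] at hY
      obtain ⟨X, hX, rfl⟩ := subset_image_iff.1 hY
      rw [restrict_indep_iff, map_image_indep_iff (hX.trans inter_subset_left),
        map_image_indep_iff (by rw [restrict_ground_eq]; exact hX), restrict_indep_iff]
      constructor
      · rintro ⟨h1, _⟩
        exact ⟨h1, hX⟩
      · rintro ⟨h1, _⟩
        exact ⟨h1, hY⟩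
    rw [e]
    exact (hi i).map hf'

end Pool.Agent.Y338.Adm
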