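import Pool.Agent.Helper185.SilverBasic

/-!
Maps of the Cantor space that do not increase the ultrametric, limits of compositions of such
maps, and perfect sets inside non-meager Borel subsets of finite powers.
-/

namespace Pool.Agent.Y338.BG

open Set Filter Topology
open Pool.Agent.Helper185.Silver (Z exists_agree isOpen_agree isOpen_of_agree)

/-- agreement below `n` -/
def Agr (n : ℕ) (x y : Z) : Prop := ∀ i < n, x i = y i

theorem Agr.refl (n : ℕ) (x : Z) : Agr n x x := fun _ _ => rfl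

theorem Agr.symm {n : ℕ} {x y : Z} (h : Agr n x y) : Agr n y x := fun i hi => (h i hi).symm

theorem Agr.trans {n : ℕ} {x y z : Z} (h : Agr n x y) (h' : Agr n y z) : Agr n x z :=
  fun i hi => (h i hi).trans (h' i hi)

theorem Agr.mono {m n : ℕ} {x y : Z} (h : Agr n x y) (hmn : m ≤ n) : Agr m x y :=
  fun i hi => h i (lt_of_lt_of_le hi hmn)

theorem exists_not_agr {x y : Z} (h : x ≠ y) : ∃ N, ¬ Agr N x y := by
  by_contra hcon
  push Not at hcon
  exact h (funext fun i => hcon (i + 1) i (Nat.lt_succ_self i))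

/-- maps that do not increase the distance -/
def Lip (f : Z → Z) : Prop := ∀ n x y, Agr n x y → Agr n (f x) (f y)

theorem Lip.comp {f g : Z → Z} (hf : Lip f) (hg : Lip g) : Lip (f ∘ g) :=
  fun n x y h => hf n _ _ (hg n x y h)

theorem Lip.continuous {f : Z → Z} (hf : Lip f) : Continuous f := by
  apply continuous_def.2
  intro O hO
  apply isOpen_of_agree
  intro x hx
  obtain ⟨N, hN⟩ := exists_agree hO hx
  exact ⟨N, fun y hy => hN _ (hf N y x hy)⟩

/-- injective maps that do not increase the distance -/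
structure Emb (f : Z → Z) : Prop where
  lip : Lip f
  inj : Function.Injective f

theorem Emb.id : Emb id := ⟨fun _ _ _ h => h, Function.injective_id⟩

theorem Emb.comp {f g : Z → Z} (hf : Emb f) (hg : Emb g) : Emb (f ∘ g) :=
  ⟨hf.lip.comp hg.lip, hf.inj.comp hg.inj⟩

/-- the map does not change the first `k` coordinates -/
def Fixes (k : ℕ) (f : Z → Z) : Prop := ∀ x, Agr k (f x) x

theorem Fixes.id (k : ℕ) : Fixes k id := fun _ _ _ => rfl

theorem Fixes.mono {k l : ℕ} {f : Z → Z} (h : Fixes l f) (hkl : k ≤ l) : Fixes k f :=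
  fun x => (h x).mono hkl

theorem Fixes.comp {k : ℕ} {f g : Z → Z} (hf : Fixes k f) (hg : Fixes k g) : Fixes k (f ∘ g) :=
  fun x => (hf (g x)).trans (hg x)

/-- finite compositions -/
def comp (θ : ℕ → Z → Z) : ℕ → ℕ → Z → Z
  | _, 0 => _root_.id
  | n, r + 1 => θ n ∘ comp θ (n + 1) r

theorem comp_zero (θ : ℕ → Z → Z) (n : ℕ) : comp θ n 0 = _root_.id := rfl

theorem comp_succ (θ : ℕ → Z → Z) (n r : ℕ) : comp θ n (r + 1) = θ n ∘ comp θ (n + 1) r := rfl

theorem comp_succ' (θ : ℕ → Z → Z) (n r : ℕ) :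
    comp θ n (r + 1) = comp θ n r ∘ θ (n + r) := by
  induction r generalizing n with
  | zero => rfl
  | succ r ih =>
    rw [comp_succ, ih (n + 1), comp_succ θ n r, Function.comp_assoc]
    congr 2
    have : n + 1 + r = n + (r + 1) := by omega
    rw [this]

theorem comp_lip {θ : ℕ → Z → Z} (hE : ∀ n, Emb (θ n)) (n r : ℕ) : Lip (comp θ n r) := by
  induction r generalizing n with
  | zero => exact Emb.id.lip
  | succ r ih => exact (hE n).lip.comp (ih (n + 1))

theorem comp_inj {θ : ℕ → Z → Z} (hE : ∀ n, Emb (θ n)) (n r : ℕ) :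
    Function.Injective (comp θ n r) := by
  induction r generalizing n with
  | zero => exact Function.injective_id
  | succ r ih => exact (hE n).inj.comp (ih (n + 1))

theorem comp_fixes {θ : ℕ → Z → Z} {k : ℕ} (hF : ∀ n, Fixes (k + n) (θ n)) (n r : ℕ) :
    Fixes (k + n) (comp θ n r) := by
  induction r generalizing n with
  | zero => exact Fixes.id _
  | succ r ih => exact (hF n).comp ((ih (n + 1)).mono (by omega))

theorem comp_stab {θ : ℕ → Z → Z} {k : ℕ} (hE : ∀ n, Emb (θ n))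
    (hF : ∀ n, Fixes (k + n) (θ n)) (n r d : ℕ) (x : Z) :
    Agr (k + n + r) (comp θ n (r + d) x) (comp θ n r x) := by
  induction d with
  | zero => exact Agr.refl _ _
  | succ d ih =>
    refine Agr.trans ?_ ih
    have h1 : comp θ n (r + (d + 1)) = comp θ n (r + d) ∘ θ (n + (r + d)) :=
      comp_succ' θ n (r + d)
    rw [h1]
    apply comp_lip hE n (r + d)
    exact (hF (n + (r + d)) x).mono (by omega)

/-- limits of compositions -/
theorem exists_limit (k : ℕ) (θ : ℕ → Z → Z) (hE : ∀ n, Emb (θ n))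
    (hF : ∀ n, Fixes (k + n) (θ n)) :
    ∃ Θ : ℕ → Z → Z, (∀ n, Emb (Θ n)) ∧ (∀ n, Fixes (k + n) (Θ n)) ∧
      ∀ n, Θ n = θ n ∘ Θ (n + 1) := by
  let Θ : ℕ → Z → Z := fun n x i => comp θ n (i + 1) x i
  have hagr : ∀ n r x, Agr r (Θ n x) (comp θ n r x) := by
    intro n r x i hi
    change comp θ n (i + 1) x i = comp θ n r x i
    obtain ⟨d, rfl⟩ := Nat.exists_eq_add_of_le (Nat.succ_le_of_lt hi)
    exact (comp_stab hE hF n (i + 1) d x i (by omega)).symm
  have hrec : ∀ n, Θ n = θ n ∘ Θ (n + 1) := by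
    intro n
    funext x i
    rw [hagr n (i + 2) x i (by omega)]
    have h1 : comp θ n (i + 2) x = θ n (comp θ (n + 1) (i + 1) x) := rfl
    rw [h1]
    exact ((hE n).lip (i + 1) _ _ (hagr (n + 1) (i + 1) x) i (by omega)).symm
  have hlip : ∀ n, Lip (Θ n) := by
    intro n m x y hxy
    exact ((hagr n m x).trans (comp_lip hE n m m x y hxy)).trans (hagr n m y).symm
  have hfix : ∀ n, Fixes (k + n) (Θ n) := by
    intro n x
    exact (hagr n (k + n) x).trans (comp_fixes hF n (k + n) x)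
  have hcomp : ∀ n r, Θ n = comp θ n r ∘ Θ (n + r) := by
    intro n r
    induction r generalizing n with
    | zero => rfl
    | succ r ih =>
      rw [comp_succ, Function.comp_assoc]
      have h1 : n + (r + 1) = n + 1 + r := by omega
      rw [h1, ← ih (n + 1)]
      exact hrec n
  refine ⟨Θ, fun n => ⟨hlip n, ?_⟩, hfix, hrec⟩
  intro x y hxy
  by_contra hne
  obtain ⟨N, hN⟩ := exists_not_agr hne
  rw [hcomp n N] at hxy
  have h2 : Θ (n + N) x = Θ (n + N) y := comp_inj hE n N hxy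
  apply hN
  have h3 := (hfix (n + N) x).mono (show N ≤ k + (n + N) by omega)
  have h4 := (hfix (n + N) y).mono (show N ≤ k + (n + N) by omega)
  rw [h2] at h3
  exact h3.symm.trans h4

section Box

variable {ι : Type} [Fintype ι]

theorem exists_box {x : ι → Z} {O : Set (ι → Z)} (hO : IsOpen O) (hx : x ∈ O) :
    ∃ N : ℕ, ∀ y : ι → Z, (∀ ν, Agr N (y ν) (x ν)) → y ∈ O := by
  classical
  obtain ⟨u, hu, hsub⟩ := isOpen_pi_iff'.1 hO x hx
  have h1 : ∀ ν, ∃ N, ∀ y : Z, (∀ n < N, y n = x ν n) → y ∈ u ν :=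
    fun ν => exists_agree (hu ν).1 (hu ν).2
  choose N hN using h1
  refine ⟨Finset.univ.sup N, fun y hy => hsub ?_⟩
  intro ν _
  apply hN
  intro n hn
  exact hy ν n (lt_of_lt_of_le hn (Finset.le_sup (Finset.mem_univ ν)))

theorem isOpen_box (x : ι → Z) (N : ℕ) : IsOpen {y : ι → Z | ∀ ν, Agr N (y ν) (x ν)} := by
  have : {y : ι → Z | ∀ ν, Agr N (y ν) (x ν)} =
      ⋂ ν, (fun y : ι → Z => y ν) ⁻¹' {z : Z | ∀ n < N, z n = x ν n} := by
    ext y
    simp [Agr]
  rw [this]
  exact isOpen_iInter_of_finite (fun ν => (isOpen_agree (x ν) N).preimage (continuous_apply ν))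

theorem exists_ext {K : Type} {D : Set (ι → Z)} (hDo : IsOpen D) (hDd : Dense D)
    (S : Finset (ι → K)) (ρ : ι → K → Z) (L : ℕ) :
    ∃ (ρ' : ι → K → Z) (L' : ℕ), L ≤ L' ∧ (∀ ν κ, Agr L (ρ' ν κ) (ρ ν κ)) ∧
      ∀ c ∈ S, ∀ y : ι → Z, (∀ ν, Agr L' (y ν) (ρ' ν (c ν))) → y ∈ D := by
  classical
  induction S using Finset.induction_on with
  | empty => exact ⟨ρ, L, le_rfl, fun _ _ => Agr.refl _ _, by simp⟩
  | insert c S hc ih =>
    obtain ⟨ρ', L', hL, hρ, hS⟩ := ih
    obtain ⟨y, hy, hyD⟩ := hDd.inter_open_nonempty _ (isOpen_box (fun ν => ρ' ν (c ν)) L')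
      ⟨_, fun ν => Agr.refl _ _⟩
    obtain ⟨N, hN⟩ := exists_box hDo hyD
    refine ⟨fun ν κ => if κ = c ν then y ν else ρ' ν κ, max L' N, hL.trans (le_max_left _ _),
      ?_, ?_⟩
    · intro ν κ
      by_cases h : κ = c ν
      · simp only [if_pos h]
        rw [h]
        exact ((hy ν).mono hL).trans (hρ ν (c ν))
      · simp only [if_neg h]
        exact hρ ν κ
    · have hag : ∀ ν κ, Agr L' (if κ = c ν then y ν else ρ' ν κ) (ρ' ν κ) := by
        intro ν κ
        by_cases h : κ = c ν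
        · simp only [if_pos h]
          rw [h]
          exact hy ν
        · simp only [if_neg h]
          exact Agr.refl _ _
      intro c' hc' w hw
      rw [Finset.mem_insert] at hc'
      rcases hc' with rfl | hc'
      · apply hN
        intro ν
        have h1 := hw ν
        simp only [if_true] at h1
        exact h1.mono (le_max_right _ _)
      · apply hS c' hc'
        intro ν
        exact ((hw ν).mono (le_max_left _ _)).trans (hag ν (c' ν))

/-- finite approximations -/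
structure Apx (ι : Type) (n : ℕ) where
  L : ℕ
  σ : ι → Z → Z
  dep : ∀ ν z z', Agr n z z' → σ ν z = σ ν z'

theorem apx_step {D : Set (ι → Z)} (hDo : IsOpen D) (hDd : Dense D) (n : ℕ) (s : Apx ι n) :
    ∃ t : Apx ι (n + 1), s.L < t.L ∧ (∀ ν z, Agr s.L (t.σ ν z) (s.σ ν z)) ∧
      (∀ ν z, t.σ ν z s.L = z n) ∧
      ∀ z y : ι → Z, (∀ ν, Agr t.L (y ν) (t.σ ν (z ν))) → y ∈ D := by
  classical
  let r : Z → (Fin (n + 1) → Bool) := fun z i => z i
  let e : (Fin (n + 1) → Bool) → Z := fun κ i => if h : i < n + 1 then κ ⟨i, h⟩ else false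
  have hre : ∀ z, Agr (n + 1) (e (r z)) z := by
    intro z i hi
    simp only [e, r, dif_pos hi]
  let ρ : ι → (Fin (n + 1) → Bool) → Z := fun ν κ i =>
    if i = s.L then e κ n else s.σ ν (e κ) i
  obtain ⟨ρ', L', hL', hρ', hD⟩ := exists_ext hDo hDd Finset.univ ρ (s.L + 1)
  refine ⟨⟨L', fun ν z => ρ' ν (r z), ?_⟩, hL', ?_, ?_, ?_⟩
  · intro ν z z' h
    have : r z = r z' := funext (fun i => h i i.2)
    change ρ' ν (r z) = ρ' ν (r z')
    rw [this]
  · intro ν z i hi
    change ρ' ν (r z) i = s.σ ν z i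
    rw [hρ' ν (r z) i (by omega)]
    change (if i = s.L then e (r z) n else s.σ ν (e (r z)) i) = s.σ ν z i
    rw [if_neg (by omega), s.dep ν _ z ((hre z).mono (Nat.le_succ n))]
  · intro ν z
    change ρ' ν (r z) s.L = z n
    rw [hρ' ν (r z) s.L (by omega)]
    change (if s.L = s.L then e (r z) n else s.σ ν (e (r z)) s.L) = z n
    rw [if_pos rfl]
    exact hre z n (by omega)
  · intro z y hy
    exact hD (fun ν => r (z ν)) (Finset.mem_univ _) y hy

/-- perfect sets inside countable intersections of dense open sets -/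
theorem mycielski (D : ℕ → Set (ι → Z)) (hDo : ∀ n, IsOpen (D n)) (hDd : ∀ n, Dense (D n))
    (x : ι → Z) (M : ℕ) :
    ∃ θ : ι → Z → Z, (∀ ν, Emb (θ ν)) ∧ (∀ ν z, Agr M (θ ν z) (x ν)) ∧
      ∀ (z : ι → Z) (n : ℕ), (fun ν => θ ν (z ν)) ∈ D n := by
  classical
  have hstep := fun n (s : Apx ι n) => apx_step (hDo n) (hDd n) n s
  choose nxt h1 h2 h3 h4 using hstep
  let s0 : Apx ι 0 := ⟨M, fun ν _ => x ν, fun _ _ _ _ => rfl⟩
  let s : (n : ℕ) → Apx ι n := fun n => Nat.rec s0 (fun n sn => nxt n sn) n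
  have hs : ∀ n, s (n + 1) = nxt n (s n) := fun n => rfl
  have hLlt : ∀ n, (s n).L < (s (n + 1)).L := fun n => by rw [hs]; exact h1 n (s n)
  have hLmono : StrictMono (fun n => (s n).L) := strictMono_nat_of_lt_succ hLlt
  have hid : ∀ n, n ≤ (s n).L := fun n => hLmono.le_apply
  have hstab : ∀ n d ν z, Agr (s n).L ((s (n + d)).σ ν z) ((s n).σ ν z) := by
    intro n d ν z
    induction d with
    | zero => exact Agr.refl _ _
    | succ d ih =>
      refine Agr.trans ?_ ih
      have h5 := h2 (n + d) (s (n + d)) ν z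
      rw [← hs] at h5
      exact h5.mono (hLmono.monotone (Nat.le_add_right n d))
  let θ : ι → Z → Z := fun ν z i => (s (i + 1)).σ ν z i
  have hagr : ∀ n ν z, Agr (s n).L (θ ν z) ((s n).σ ν z) := by
    intro n ν z i hi
    change (s (i + 1)).σ ν z i = (s n).σ ν z i
    rcases le_total n (i + 1) with h | h
    · obtain ⟨d, hd⟩ := Nat.exists_eq_add_of_le h
      rw [hd]
      exact hstab n d ν z i hi
    · obtain ⟨d, hd⟩ := Nat.exists_eq_add_of_le h
      rw [hd]
      exact (hstab (i + 1) d ν z i (lt_of_lt_of_le (Nat.lt_succ_self i) (hid (i + 1)))).symm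
  refine ⟨θ, fun ν => ⟨?_, ?_⟩, ?_, ?_⟩
  · intro m z z' hzz i hi
    change (s (i + 1)).σ ν z i = (s (i + 1)).σ ν z' i
    rw [(s (i + 1)).dep ν z z' (hzz.mono (by omega))]
  · intro z z' hzz
    funext n
    have h5 : ∀ w, θ ν w (s n).L = w n := by
      intro w
      rw [hagr (n + 1) ν w (s n).L (hLlt n)]
      have h6 := h3 n (s n) ν w
      rw [← hs] at h6
      exact h6
    rw [← h5 z, ← h5 z', hzz]
  · intro ν z
    exact hagr 0 ν z
  · intro z n
    have h5 := h4 n (s n) z (fun ν => θ ν (z ν))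
    rw [← hs] at h5
    exact h5 (fun ν => hagr (n + 1) ν (z ν))

/-- A countable cover of a finite power by Borel sets has a member containing a product of
perfect sets. -/
theorem exists_good (W : ℕ → Set (ι → Z)) (hW : ∀ l, MeasurableSet (W l))
    (hcov : ∀ z, ∃ l, z ∈ W l) :
    ∃ (l : ℕ) (θ : ι → Z → Z), (∀ ν, Emb (θ ν)) ∧ ∀ z : ι → Z, (fun ν => θ ν (z ν)) ∈ W l := by
  classical
  have h1 : ∀ l, ∃ O, IsOpen O ∧ W l =ᶠ[residual (ι → Z)] O := fun l =>
    (hW l).baireMeasurableSet.residualEq_isOpen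
  choose O hO hWO using h1
  have h2 : ∃ l, (O l).Nonempty := by
    by_contra hcon
    push Not at hcon
    have h3 : ∀ᶠ z in residual (ι → Z), ∀ l, z ∉ W l := by
      rw [eventually_countable_forall]
      intro l
      filter_upwards [hWO l] with z hz
      intro hzW
      have h4 : z ∈ O l := by
        have h5 : (W l) z = (O l) z := hz
        have h6 : (W l) z := hzW
        rw [h5] at h6
        exact h6
      rw [hcon l] at h4
      exact h4
    obtain ⟨z, hz⟩ := (dense_of_mem_residual h3).nonempty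
    obtain ⟨l, hl⟩ := hcov z
    exact hz l hl
  obtain ⟨l, x, hx⟩ := h2
  obtain ⟨M, hM⟩ := exists_box (hO l) hx
  obtain ⟨t, ht, htG, htD⟩ := mem_residual.1 (hWO l)
  obtain ⟨D, hDo, hDt⟩ := isGδ_iff_eq_iInter_nat.1 htG
  have hDd : ∀ n, Dense (D n) := fun n => htD.mono (by rw [hDt]; exact iInter_subset _ n)
  obtain ⟨θ, hθ1, hθ2, hθ3⟩ := mycielski D hDo hDd x M
  refine ⟨l, θ, hθ1, fun z => ?_⟩
  have h5 : (fun ν => θ ν (z ν)) ∈ t := by
    rw [hDt]
    exact mem_iInter.2 (fun n => hθ3 z n)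
  have h6 : (fun ν => θ ν (z ν)) ∈ O l := hM _ (fun ν => hθ2 ν (z ν))
  have h7 := ht h5
  have h8 : (W l) (fun ν => θ ν (z ν)) = (O l) (fun ν => θ ν (z ν)) := h7
  have h9 : (O l) (fun ν => θ ν (z ν)) := h6
  rw [← h8] at h9
  exact h9

end Box

end Pool.Agent.Y338.BG
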