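import Pool.Agent.Y338.BG1

/-!
The fusion lemma for finitely supported integer combinations.
-/

namespace Pool.Agent.Y338.BG

open Set Filter Topology
open Pool.Agent.Helper185.Silver (Z exists_agree isOpen_agree isOpen_of_agree)

/-- the group of integer sequences -/
abbrev Y := ℕ → ℤ

/-- the natural map of the Cantor space into the group of integer sequences -/
def e (z : Z) : Y := fun n => if z n then 1 else 0

theorem continuous_e : Continuous e := by
  apply continuous_pi
  intro n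
  have h : (fun z : Z => e z n) = (fun b : Bool => if b then (1 : ℤ) else 0) ∘ fun z : Z => z n := rfl
  rw [h]
  exact continuous_of_discreteTopology.comp (continuous_apply n)

/-- the value of a finitely supported combination -/
noncomputable def Val (c : Z →₀ ℤ) : Y := c.sum (fun x m => m • e x)

theorem Val_sum {ι : Type} [Fintype ι] (y : ι → Z) (γ : ι → ℤ) :
    Val (∑ ν, Finsupp.single (y ν) (γ ν)) = ∑ ν, γ ν • e (y ν) := by
  classical
  unfold Val
  rw [← Finsupp.sum_finsetSum_index]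
  · apply Finset.sum_congr rfl
    intro ν _
    rw [Finsupp.sum_single_index]
    simp
  · intro a
    simp
  · intro a b₁ b₂
    rw [add_smul]

theorem Val_add (c d : Z →₀ ℤ) : Val (c + d) = Val c + Val d := by
  classical
  unfold Val
  rw [Finsupp.sum_add_index']
  · intro a
    simp
  · intro a b₁ b₂
    rw [add_smul]

theorem Val_neg (c : Z →₀ ℤ) : Val (-c) = - Val c := by
  have h := Val_add c (-c)
  rw [add_neg_cancel] at h
  have h0 : Val (0 : Z →₀ ℤ) = 0 := by
    unfold Val
    exact Finsupp.sum_zero_index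
  rw [h0] at h
  exact (neg_eq_of_add_eq_zero_right h.symm).symm

/-- concatenation -/
def cat (j : ℕ) (s : Fin j → Bool) (w : Z) : Z := fun k => if h : k < j then s ⟨k, h⟩ else w (k - j)

/-- the tail of a point -/
def shift (j : ℕ) (z : Z) : Z := fun k => z (k + j)

/-- the beginning of a point -/
def res (j : ℕ) (z : Z) : Fin j → Bool := fun i => z i

theorem cat_lt {j k : ℕ} (h : k < j) (s : Fin j → Bool) (w : Z) : cat j s w k = s ⟨k, h⟩ := by
  simp only [cat, dif_pos h]

theorem cat_ge {j k : ℕ} (h : j ≤ k) (s : Fin j → Bool) (w : Z) : cat j s w k = w (k - j) := by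
  simp only [cat, dif_neg (not_lt.2 h)]

theorem continuous_cat (j : ℕ) (s : Fin j → Bool) : Continuous (cat j s) := by
  apply continuous_pi
  intro k
  by_cases h : k < j
  · simp only [cat, dif_pos h]
    exact continuous_const
  · simp only [cat, dif_neg h]
    exact continuous_apply _

theorem cat_res_shift (j : ℕ) (z : Z) : cat j (res j z) (shift j z) = z := by
  funext k
  by_cases h : k < j
  · rw [cat_lt h]
    rfl
  · rw [cat_ge (not_lt.1 h)]
    simp only [shift]
    congr 1
    omega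

theorem res_congr {j : ℕ} {x y : Z} (h : Agr j x y) : res j x = res j y :=
  funext (fun i => h i i.2)

theorem agr_of_res {j : ℕ} {x y : Z} (h : res j x = res j y) : Agr j x y :=
  fun i hi => congrFun h ⟨i, hi⟩

/-- glue maps given on the tails -/
def lift (j : ℕ) (θ : (Fin j → Bool) → Z → Z) (z : Z) : Z :=
  cat j (res j z) (θ (res j z) (shift j z))

theorem lift_fixes (j : ℕ) (θ : (Fin j → Bool) → Z → Z) : Fixes j (lift j θ) := by
  intro x i hi
  simp only [lift, cat_lt hi]
  rfl

theorem lift_emb (j : ℕ) (θ : (Fin j → Bool) → Z → Z) (hθ : ∀ s, Emb (θ s)) :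
    Emb (lift j θ) := by
  constructor
  · intro n x y hxy
    by_cases hn : n ≤ j
    · exact (((lift_fixes j θ x).mono hn).trans hxy).trans ((lift_fixes j θ y).mono hn).symm
    · have h1 : res j x = res j y := res_congr (hxy.mono (by omega))
      have h2 : Agr (n - j) (shift j x) (shift j y) := by
        intro i hi
        exact hxy (i + j) (by omega)
      have h3 := (hθ (res j x)).lip _ _ _ h2
      intro k hk
      simp only [lift]
      rw [← h1]
      by_cases hkj : k < j
      · rw [cat_lt hkj, cat_lt hkj]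
      · rw [cat_ge (not_lt.1 hkj), cat_ge (not_lt.1 hkj)]
        exact h3 _ (by omega)
  · intro x y hxy
    have h1 : res j x = res j y := by
      apply res_congr
      exact ((lift_fixes j θ x).symm.trans (fun i _ => congrFun hxy i)).trans (lift_fixes j θ y)
    have h2 : θ (res j x) (shift j x) = θ (res j x) (shift j y) := by
      funext k
      have h3 := congrFun hxy (k + j)
      simp only [lift] at h3
      rw [← h1, cat_ge (by omega), cat_ge (by omega)] at h3
      simpa using h3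
    have h3 := (hθ (res j x)).inj h2
    rw [← cat_res_shift j x, ← cat_res_shift j y, h1, h3]

/-- the index type of the nodes at stage `j` -/
abbrev Nd (j : ℕ) := Fin (j + 1) × (Fin j → Bool)

theorem stage_fusion {φ : ℕ → Z → Z} (hφ : ∀ p, Lip (φ p)) {u : ℕ → Set Y}
    (hu : ∀ l, MeasurableSet (u l)) (j : ℕ)
    (hcov : ∀ C : Finset (Z →₀ ℤ), (∀ c ∈ C, ∀ x ∈ c.support, ∃ p, x ∈ range (φ p)) →
      ∃ l, ∀ c ∈ C, Val c ∈ u l) :
    ∃ (θ : ℕ → Z → Z) (l : ℕ), (∀ p, Emb (θ p)) ∧ (∀ p, Fixes j (θ p)) ∧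
      (∀ p, j < p → θ p = id) ∧
      ∀ (z : Nd j → Z), (∀ ν, res j (z ν) = ν.2) → ∀ γ : Nd j → ℤ, (∀ ν, |γ ν| ≤ j) →
        ∑ ν, γ ν • e (φ ν.1 (θ ν.1 (z ν))) ∈ u l := by
  classical
  let Γ : Finset (Nd j → ℤ) := Fintype.piFinset (fun _ => Finset.Icc (-(j : ℤ)) j)
  let Pt : (Nd j → Z) → Nd j → Z := fun w ν => φ ν.1 (cat j ν.2 (w ν))
  have hPt : ∀ ν, Continuous (fun w => Pt w ν) := fun ν =>
    (hφ ν.1).continuous.comp ((continuous_cat j ν.2).comp (continuous_apply ν))
  let W : ℕ → Set (Nd j → Z) := fun l => ⋂ γ ∈ Γ, {w | ∑ ν, γ ν • e (Pt w ν) ∈ u l}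
  have hW : ∀ l, MeasurableSet (W l) := by
    intro l
    apply Finset.measurableSet_biInter
    intro γ _
    have hc : Continuous (fun w : Nd j → Z => ∑ ν, γ ν • e (Pt w ν)) := by
      apply continuous_finsetSum
      intro ν _
      exact (continuous_e.comp (hPt ν)).const_smul (γ ν)
    exact hc.measurable (hu l)
  have hWc : ∀ w, ∃ l, w ∈ W l := by
    intro w
    obtain ⟨l, hl⟩ := hcov (Γ.image (fun γ => ∑ ν, Finsupp.single (Pt w ν) (γ ν))) (by
      intro c hc x hx
      rw [Finset.mem_image] at hc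
      obtain ⟨γ, _, rfl⟩ := hc
      have h1 := Finsupp.support_finsetSum hx
      rw [Finset.mem_biUnion] at h1
      obtain ⟨ν, _, hν⟩ := h1
      have h2 := Finsupp.support_single_subset hν
      rw [Finset.mem_singleton] at h2
      exact ⟨ν.1, h2 ▸ mem_range_self _⟩)
    refine ⟨l, mem_iInter₂.2 (fun γ hγ => ?_)⟩
    have h1 := hl _ (Finset.mem_image_of_mem _ hγ)
    rw [Val_sum] at h1
    exact h1
  obtain ⟨l, θ0, hE, hl⟩ := exists_good W hW hWc
  refine ⟨fun p => if h : p < j + 1 then lift j (fun s => θ0 (⟨p, h⟩, s)) else id, l, ?_, ?_, ?_,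
    ?_⟩
  · intro p
    by_cases h : p < j + 1
    · simp only [dif_pos h]
      exact lift_emb _ _ (fun s => hE _)
    · simp only [dif_neg h]
      exact Emb.id
  · intro p
    by_cases h : p < j + 1
    · simp only [dif_pos h]
      exact lift_fixes _ _
    · simp only [dif_neg h]
      exact Fixes.id _
  · intro p hp
    simp only [dif_neg (show ¬ p < j + 1 by omega)]
  · intro z hz γ hγ
    have h1 := hl (fun ν => shift j (z ν))
    have h2 := mem_iInter₂.1 h1 γ (by
      rw [Fintype.mem_piFinset]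
      intro ν
      rw [Finset.mem_Icc]
      exact abs_le.1 (hγ ν))
    have h3 : ∀ ν : Nd j, φ ν.1 ((if h : (ν.1 : ℕ) < j + 1 then
        lift j (fun s => θ0 (⟨ν.1, h⟩, s)) else id) (z ν)) =
        Pt (fun ν => θ0 ν (shift j (z ν))) ν := by
      intro ν
      simp only [dif_pos ν.1.2]
      change φ ν.1 (lift j (fun s => θ0 (ν.1, s)) (z ν)) = φ ν.1 (cat j ν.2 (θ0 ν (shift j (z ν))))
      simp only [lift]
      rw [hz ν]
    have h4 : ∑ ν : Nd j, γ ν • e (φ ν.1 ((if h : (ν.1 : ℕ) < j + 1 then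
        lift j (fun s => θ0 (⟨ν.1, h⟩, s)) else id) (z ν))) =
        ∑ ν, γ ν • e (Pt (fun ν => θ0 ν (shift j (z ν))) ν) := by
      apply Finset.sum_congr rfl
      intro ν _
      rw [h3 ν]
    rw [h4]
    exact h2

/-- the fusion lemma -/
theorem fusion {Φ : ℕ → Z → Z} (hΦ : ∀ p, Lip (Φ p)) {u : ℕ → ℕ → Set Y}
    (hu : ∀ j l, MeasurableSet (u j l))
    (hcov : ∀ j, ∀ C : Finset (Z →₀ ℤ), (∀ c ∈ C, ∀ x ∈ c.support, ∃ p, x ∈ range (Φ p)) →
      ∃ l, ∀ c ∈ C, Val c ∈ u j l) :
    ∃ (Θ : ℕ → Z → Z) (f : ℕ → ℕ), (∀ p, Emb (Θ p)) ∧ (∀ p, Fixes p (Θ p)) ∧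
      ∀ c : Z →₀ ℤ, (∀ x ∈ c.support, ∃ p, x ∈ range (Φ p ∘ Θ p)) →
        {j | Val c ∉ u j (f j)}.Finite := by
  classical
  let S : Type := {φ : ℕ → Z → Z // ∀ p, ∃ ψ, Emb ψ ∧ φ p = Φ p ∘ ψ}
  have hstep : ∀ (j : ℕ) (φ : S), ∃ (θ : ℕ → Z → Z) (l : ℕ), (∀ p, Emb (θ p)) ∧
      (∀ p, Fixes j (θ p)) ∧ (∀ p, j < p → θ p = id) ∧
      ∀ (z : Nd j → Z), (∀ ν, res j (z ν) = ν.2) → ∀ γ : Nd j → ℤ, (∀ ν, |γ ν| ≤ j) →
        ∑ ν, γ ν • e (φ.1 ν.1 (θ ν.1 (z ν))) ∈ u j l := by
    intro j φ
    apply stage_fusion (φ := φ.1) _ (hu j) j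
    · intro C hC
      apply hcov j C
      intro c hc x hx
      obtain ⟨p, hp⟩ := hC c hc x hx
      refine ⟨p, ?_⟩
      obtain ⟨ψ, _, hψ⟩ := φ.2 p
      rw [hψ] at hp
      exact range_comp_subset_range _ _ hp
    · intro p
      obtain ⟨ψ, hψ1, hψ⟩ := φ.2 p
      rw [hψ]
      exact (hΦ p).comp hψ1.lip
  choose θ0 l0 hE hF hid hsel using hstep
  let s0 : S := ⟨Φ, fun p => ⟨id, Emb.id, rfl⟩⟩
  let nxt : ℕ → S → S := fun j φ => ⟨fun p => φ.1 p ∘ θ0 j φ p, fun p => by
    obtain ⟨ψ, hψ1, hψ⟩ := φ.2 p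
    refine ⟨ψ ∘ θ0 j φ p, hψ1.comp (hE j φ p), ?_⟩
    change φ.1 p ∘ θ0 j φ p = _
    rw [hψ]
    rfl⟩
  let s : ℕ → S := fun j => Nat.rec s0 (fun j sj => nxt j sj) j
  have hs : ∀ j p, (s (j + 1)).1 p = (s j).1 p ∘ θ0 j (s j) p := fun j p => rfl
  have hbefore : ∀ p j, j ≤ p → (s j).1 p = Φ p := by
    intro p j
    induction j with
    | zero => intro _; rfl
    | succ j ih =>
      intro hj
      rw [hs, hid j (s j) p (by omega), ih (by omega)]
      rfl
  -- limits
  have hlim := fun p => exists_limit p (fun n => θ0 (p + n) (s (p + n)) p)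
    (fun n => hE _ _ _) (fun n => hF _ _ _)
  choose T hT1 hT2 hT3 using hlim
  have hmain : ∀ p n, (s (p + n)).1 p ∘ T p n = Φ p ∘ T p 0 := by
    intro p n
    induction n with
    | zero => rw [hbefore p (p + 0) (by omega)]
    | succ n ih =>
      rw [← ih, hT3 p n]
      rfl
  refine ⟨fun p => T p 0, fun j => l0 j (s j), fun p => hT1 p 0, fun p => hT2 p 0, ?_⟩
  intro c hc
  have hrep : ∀ x : c.support, ∃ (p : ℕ) (z : Z), Φ p (T p 0 z) = x.1 := by
    intro x
    obtain ⟨p, z, hz⟩ := hc x.1 x.2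
    exact ⟨p, z, hz⟩
  choose P ζ hPζ using hrep
  -- separation level
  have hsep : ∀ x y : c.support, ∃ N, P x = P y → Agr N (ζ x) (ζ y) → x = y := by
    intro x y
    by_cases hz : ζ x = ζ y
    · refine ⟨0, fun hP _ => ?_⟩
      apply Subtype.ext
      rw [← hPζ x, ← hPζ y, hP, hz]
    · obtain ⟨N, hN⟩ := exists_not_agr hz
      exact ⟨N, fun _ h => absurd h hN⟩
  choose N hN using hsep
  let J : ℕ := (Finset.univ.sup P) + (Finset.univ.sup (fun q : c.support × c.support => N q.1 q.2)) +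
    (Finset.univ.sup (fun x : c.support => (c x.1).natAbs))
  have hJP : ∀ x, P x ≤ J := fun x => by
    have := Finset.le_sup (f := P) (Finset.mem_univ x)
    omega
  have hJN : ∀ x y, N x y ≤ J := fun x y => by
    have := Finset.le_sup (f := fun q : c.support × c.support => N q.1 q.2)
      (Finset.mem_univ (x, y))
    simp only at this
    omega
  have hJc : ∀ x : c.support, (c x.1).natAbs ≤ J := fun x => by
    have := Finset.le_sup (f := fun x : c.support => (c x.1).natAbs) (Finset.mem_univ x)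
    omega
  apply (finite_lt_nat J).subset
  intro j hj
  by_contra hjJ
  apply hj
  have hJj : J ≤ j := le_of_not_gt (fun h => hjJ h)
  let g : c.support → Nd j := fun x => (⟨P x, by have := hJP x; omega⟩, res j (ζ x))
  have hg : Function.Injective g := by
    intro x y hxy
    apply hN x y
    · have h1 := congrArg (fun q : Nd j => (q.1 : ℕ)) hxy
      exact h1
    · have h2 := congrArg (fun q : Nd j => q.2) hxy
      exact (agr_of_res h2).mono ((hJN x y).trans hJj)
  let zz : Nd j → Z := fun ν => if h : ∃ x, g x = ν then T (P h.choose) (j - P h.choose + 1) (ζ h.choose)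
    else cat j ν.2 (fun _ => false)
  let γ : Nd j → ℤ := fun ν => if h : ∃ x, g x = ν then c h.choose.1 else 0
  have hch : ∀ x (h : ∃ y, g y = g x), h.choose = x := fun x h => hg h.choose_spec
  have hzz : ∀ x, zz (g x) = T (P x) (j - P x + 1) (ζ x) := by
    intro x
    have h : ∃ y, g y = g x := ⟨x, rfl⟩
    simp only [zz]
    rw [dif_pos h, hch x h]
  have hγ : ∀ x, γ (g x) = c x.1 := by
    intro x
    have h : ∃ y, g y = g x := ⟨x, rfl⟩
    simp only [γ]
    rw [dif_pos h, hch x h]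
  have hγ0 : ∀ ν, ν ∉ range g → γ ν = 0 := by
    intro ν hν
    have h : ¬ ∃ y, g y = ν := hν
    simp only [γ]
    rw [dif_neg h]
  have h1 := hsel j (s j) zz (by
    intro ν
    by_cases h : ∃ x, g x = ν
    · obtain ⟨x, rfl⟩ := h
      rw [hzz x]
      change _ = res j (ζ x)
      apply res_congr
      exact (hT2 (P x) (j - P x + 1) (ζ x)).mono (by have := hJP x; omega)
    · simp only [zz]
      rw [dif_neg h]
      funext i
      simp only [res]
      rw [cat_lt i.2]) γ (by
    intro ν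
    by_cases h : ∃ x, g x = ν
    · obtain ⟨x, rfl⟩ := h
      rw [hγ x, ← Int.natCast_natAbs]
      exact_mod_cast (hJc x).trans hJj
    · rw [hγ0 ν h]
      simp)
  have h2 : ∑ x : c.support, c x.1 • e x.1 =
      ∑ ν, γ ν • e ((s j).1 ν.1 (θ0 j (s j) ν.1 (zz ν))) := by
    apply Fintype.sum_of_injective g hg
    · intro ν hν
      rw [hγ0 ν hν, zero_smul]
    · intro x
      rw [hγ x, hzz x]
      congr 2
      change x.1 = (s j).1 (P x) (θ0 j (s j) (P x) (T (P x) (j - P x + 1) (ζ x)))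
      obtain ⟨n, hn⟩ := Nat.exists_eq_add_of_le ((hJP x).trans hJj)
      have h3 : j - P x = n := by omega
      rw [h3]
      have h4 := hT3 (P x) n
      have h5 : T (P x) n (ζ x) = θ0 j (s j) (P x) (T (P x) (n + 1) (ζ x)) := by
        rw [h4]
        simp only [Function.comp]
        rw [← hn]
      rw [← h5]
      have h6 := congrFun (hmain (P x) n) (ζ x)
      rw [← hn] at h6
      simp only [Function.comp] at h6
      rw [h6]
      exact (hPζ x).symm
  rw [← h2] at h1
  have h3 : Val c = ∑ x : c.support, c x.1 • e x.1 := by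
    unfold Val Finsupp.sum
    exact (Finset.sum_coe_sort c.support (fun x => c x • e x)).symm
  rw [h3]
  exact h1

end Pool.Agent.Y338.BG
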