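import Pool.Agent.Y338.BG2

/-!
Conditions (countable families of perfect sets), lower bounds, and the stage lemma.
-/

namespace Pool.Agent.Y338.BG

set_option linter.unusedSectionVars false

open Set Filter Topology
open Pool.Agent.Helper185.Silver (Z exists_agree isOpen_agree isOpen_of_agree)

/-- conditions: countable families of perfect sets -/
abbrev Cond := ℕ → Z → Z

/-- all members are embeddings -/
def Good (P : Cond) : Prop := ∀ i, Emb (P i)

/-- the union of the perfect sets -/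
def Rs (P : Cond) : Set Z := ⋃ i, range (P i)

theorem mem_Rs {P : Cond} {x : Z} : x ∈ Rs P ↔ ∃ i z, P i z = x := by
  simp [Rs]

/-- the order of conditions -/
def Le (Q P : Cond) : Prop :=
  (∀ i k, ∃ (i' : ℕ) (θ : Z → Z), Emb θ ∧ Fixes k θ ∧ Q i' = P i ∘ θ) ∧ Rs Q ⊆ Rs P

theorem Le.refl (P : Cond) : Le P P :=
  ⟨fun i k => ⟨i, id, Emb.id, Fixes.id k, rfl⟩, subset_rfl⟩

theorem Le.trans {R Q P : Cond} (h : Le R Q) (h' : Le Q P) : Le R P := by
  refine ⟨fun i k => ?_, h.2.trans h'.2⟩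
  obtain ⟨i1, θ1, hE1, hF1, h1⟩ := h'.1 i k
  obtain ⟨i2, θ2, hE2, hF2, h2⟩ := h.1 i1 k
  exact ⟨i2, θ1 ∘ θ2, hE1.comp hE2, hF1.comp hF2, by rw [h2, h1]; rfl⟩

/-- lower bounds of decreasing sequences of conditions -/
theorem lower_seq (P : ℕ → Cond) (hG : ∀ n, Good (P n)) (hle : ∀ m n, m ≤ n → Le (P n) (P m)) :
    ∃ Q : Cond, Good Q ∧ ∀ n, Le Q (P n) := by
  classical
  have h1 : ∀ n i k, ∃ (i' : ℕ) (θ : Z → Z), Emb θ ∧ Fixes k θ ∧ P (n + 1) i' = P n i ∘ θ :=
    fun n i k => (hle n (n + 1) (Nat.le_succ n)).1 i k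
  choose nx θ hE hF hP using h1
  -- the chain of indices starting from `(n, i, k)`
  let idx : ℕ → ℕ → ℕ → ℕ → ℕ := fun n i k r =>
    Nat.rec i (fun r ir => nx (n + r) ir (k + r)) r
  have hidx : ∀ n i k r, idx n i k (r + 1) = nx (n + r) (idx n i k r) (k + r) :=
    fun _ _ _ _ => rfl
  have hlim := fun n i k => exists_limit k (fun r => θ (n + r) (idx n i k r) (k + r))
    (fun r => hE _ _ _) (fun r => hF _ _ _)
  choose T hT1 hT2 hT3 using hlim
  have hmain : ∀ n i k r, P (n + r) (idx n i k r) ∘ T n i k r = P n i ∘ T n i k 0 := by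
    intro n i k r
    induction r with
    | zero => rfl
    | succ r ih =>
      rw [← ih, hT3 n i k r, hidx]
      have h2 := hP (n + r) (idx n i k r) (k + r)
      have h3 : n + (r + 1) = n + r + 1 := rfl
      rw [h3, h2]
      rfl
  let dec : ℕ → ℕ × ℕ × ℕ := fun m => (Nat.unpair m).1 |> fun a =>
    (a, (Nat.unpair (Nat.unpair m).2).1, (Nat.unpair (Nat.unpair m).2).2)
  have hdec : ∀ n i k, ∃ m, dec m = (n, i, k) := by
    intro n i k
    refine ⟨Nat.pair n (Nat.pair i k), ?_⟩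
    simp [dec, Nat.unpair_pair]
  refine ⟨fun m => P (dec m).1 (dec m).2.1 ∘ T (dec m).1 (dec m).2.1 (dec m).2.2 0, ?_, ?_⟩
  · intro m
    exact (hG _ _).comp (hT1 _ _ _ _)
  · intro n
    refine ⟨fun i k => ?_, ?_⟩
    · obtain ⟨m, hm⟩ := hdec n i k
      refine ⟨m, T n i k 0, hT1 _ _ _ _, (hT2 n i k 0).mono (by omega), ?_⟩
      simp only [hm]
    · intro x hx
      obtain ⟨m, z, hz⟩ := mem_Rs.1 hx
      rcases le_total (dec m).1 n with h | h
      · obtain ⟨r, hr⟩ := Nat.exists_eq_add_of_le h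
        have h2 := congrFun (hmain (dec m).1 (dec m).2.1 (dec m).2.2 r) z
        rw [← hr] at h2
        rw [← hz]
        rw [← h2]
        exact mem_Rs.2 ⟨_, _, rfl⟩
      · apply (hle n (dec m).1 h).2
        rw [← hz]
        exact mem_Rs.2 ⟨_, _, rfl⟩

/-- combinations supported on a set -/
def Supp (A : Set Z) (c : Z →₀ ℤ) : Prop := ∀ x ∈ c.support, x ∈ A

theorem Supp.mono {A B : Set Z} {c : Z →₀ ℤ} (h : Supp A c) (hAB : A ⊆ B) : Supp B c :=
  fun x hx => hAB (h x hx)

/-- the disposition of one task -/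
def Task (Q : Cond) (D X0 : Set Z) (u : ℕ → ℕ → Set Y) : Prop :=
  (∃ f : ℕ → ℕ, ∀ c, Supp (X0 ∪ Rs Q) c → {n | Val c ∉ u n (f n)}.Finite) ∨
  (∃ n, ∃ C : Finset (Z →₀ ℤ), (∀ c ∈ C, Supp (X0 ∪ D) c) ∧ ∀ m, ∃ c ∈ C, Val c ∉ u n m)

theorem not_countable_Z : ¬ (univ : Set Z).Countable := by
  intro h
  have h1 : Countable Z := countable_univ_iff.1 h
  have h2 : Cardinal.mk Z ≤ Cardinal.aleph0 := Cardinal.mk_le_aleph0
  have h3 : Cardinal.mk Z = Cardinal.continuum := by
    change Cardinal.mk (ℕ → Bool) = _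
    rw [← Cardinal.power_def, Cardinal.mk_bool, Cardinal.mk_nat, Cardinal.two_power_aleph0]
  rw [h3] at h2
  exact absurd h2 (not_le.2 Cardinal.aleph0_lt_continuum)

theorem exists_new {Q : Cond} (hQ : Good Q) {X0 : Set Z} (hX0 : X0.Countable) :
    ∃ x ∈ Rs Q, x ∉ X0 := by
  by_contra hcon
  push Not at hcon
  apply not_countable_Z
  have h1 : MapsTo (Q 0) univ X0 := fun z _ => hcon _ (mem_Rs.2 ⟨0, z, rfl⟩)
  exact countable_of_injective_of_countable_image (hQ 0).inj.injOn (hX0.mono (image_subset_iff.2 h1))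

/-- the stage lemma -/
theorem stage {P : Cond} (hP : Good P) {X0 : Set Z} (hX0 : X0.Countable)
    {u : ℕ → ℕ → Set Y} (hu : ∀ n m, MeasurableSet (u n m)) :
    ∃ (Q : Cond) (D : Set Z), Good Q ∧ Le Q P ∧ D.Countable ∧ D ⊆ Rs Q ∧ (∃ x ∈ D, x ∉ X0) ∧
      Task Q D X0 u := by
  classical
  by_cases h : ∀ j, ∀ C : Finset (Z →₀ ℤ), (∀ c ∈ C, Supp (X0 ∪ Rs P) c) →
      ∃ l, ∀ c ∈ C, Val c ∈ u j l
  · -- enumeration of `X0`
    obtain ⟨a, ha⟩ : ∃ a : ℕ → Z, X0 ⊆ range a ∧ range a ⊆ X0 ∪ Rs P := by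
      rcases X0.eq_empty_or_nonempty with he | hne
      · subst he
        refine ⟨fun _ => P 0 (fun _ => false), empty_subset _, ?_⟩
        rintro _ ⟨_, rfl⟩
        exact Or.inr (mem_Rs.2 ⟨0, _, rfl⟩)
      · obtain ⟨a, ha⟩ := hX0.exists_eq_range hne
        exact ⟨a, ha.subset, ha ▸ subset_union_left⟩
    let Φ : ℕ → Z → Z := fun q => if q % 2 = 0 then P (Nat.unpair (q / 2)).1
      else fun _ => a (q / 2)
    have hev : ∀ p, Φ (2 * p) = P (Nat.unpair p).1 := by
      intro p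
      simp only [Φ]
      rw [if_pos (by omega)]
      congr 3
      omega
    have hod : ∀ p, Φ (2 * p + 1) = fun _ => a p := by
      intro p
      simp only [Φ]
      rw [if_neg (by omega)]
      funext _
      congr 1
      omega
    have hΦ : ∀ q, Lip (Φ q) := by
      intro q
      rcases Nat.even_or_odd' q with ⟨p, rfl | rfl⟩
      · rw [hev]
        exact (hP _).lip
      · rw [hod]
        intro n x y _
        exact Agr.refl _ _
    have hΦr : ∀ q, range (Φ q) ⊆ X0 ∪ Rs P := by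
      intro q
      rcases Nat.even_or_odd' q with ⟨p, rfl | rfl⟩
      · rw [hev]
        rintro _ ⟨z, rfl⟩
        exact Or.inr (mem_Rs.2 ⟨_, _, rfl⟩)
      · rw [hod]
        rintro _ ⟨z, rfl⟩
        exact ha.2 (mem_range_self _)
    obtain ⟨Θ, f, hΘ1, hΘ2, hf⟩ := fusion hΦ hu (by
      intro j C hC
      apply h j C
      intro c hc x hx
      obtain ⟨p, hp⟩ := hC c hc x hx
      exact hΦr p hp)
    let Q : Cond := fun p => P (Nat.unpair p).1 ∘ Θ (2 * p)
    have hQ : Good Q := fun p => (hP _).comp (hΘ1 _)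
    obtain ⟨x, hx, hxX⟩ := exists_new hQ hX0
    refine ⟨Q, {x}, hQ, ⟨?_, ?_⟩, countable_singleton x, ?_, ⟨x, rfl, hxX⟩, Or.inl ⟨f, ?_⟩⟩
    · intro i k
      refine ⟨Nat.pair i k, Θ (2 * Nat.pair i k), hΘ1 _, (hΘ2 _).mono ?_, ?_⟩
      · have := Nat.right_le_pair i k
        omega
      · simp only [Q, Nat.unpair_pair]
    · intro y hy
      obtain ⟨p, z, hz⟩ := mem_Rs.1 hy
      exact mem_Rs.2 ⟨(Nat.unpair p).1, Θ (2 * p) z, hz⟩
    · rintro _ rfl
      exact hx
    · intro c hc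
      apply hf c
      intro y hy
      rcases hc y hy with h1 | h1
      · obtain ⟨p, rfl⟩ := ha.1 h1
        refine ⟨2 * p + 1, ?_⟩
        rw [hod]
        exact ⟨fun _ => false, rfl⟩
      · obtain ⟨p, z, hz⟩ := mem_Rs.1 h1
        refine ⟨2 * p, ?_⟩
        rw [hev]
        exact ⟨z, hz⟩
  · push Not at h
    obtain ⟨n, C, hC, hCn⟩ := h
    obtain ⟨x, hx, hxX⟩ := exists_new hP hX0
    let D : Set Z := insert x (Rs P ∩ ⋃ c ∈ C, (c.support : Set Z))
    refine ⟨P, D, hP, Le.refl P, ?_, ?_, ⟨x, mem_insert _ _, hxX⟩, Or.inr ⟨n, C, ?_, hCn⟩⟩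
    · apply Countable.insert
      apply Countable.mono inter_subset_right
      exact C.countable_toSet.biUnion (fun c _ => c.support.countable_toSet)
    · rintro y (rfl | hy)
      · exact hx
      · exact hy.1
    · intro c hc y hy
      rcases hC c hc y hy with h1 | h1
      · exact Or.inl h1
      · exact Or.inr (Or.inr ⟨h1, mem_iUnion₂.2 ⟨c, hc, hy⟩⟩)

section Rec

variable {I : Type} [LinearOrder I] [WellFoundedLT I]

theorem exists_lower {i : I} (hI : (Iio i).Countable) (prev : (j : I) → j < i → Cond)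
    (hinf : ∀ j h, Good (prev j h))
    (hchain : ∀ (j k : I) (hj : j < i) (hk : k < i), j < k → Le (prev k hk) (prev j hj)) :
    ∃ p : Cond, Good p ∧ ∀ j h, Le p (prev j h) := by
  classical
  have : Countable (Iio i) := hI.to_subtype
  rcases isEmpty_or_nonempty (Iio i) with he | hne
  · exact ⟨fun _ => id, fun _ => Emb.id, fun j h => (he.false ⟨j, h⟩).elim⟩
  · obtain ⟨e, he⟩ := exists_surjective_nat (Iio i)
    have hch : ∀ a b : Iio i, a ≤ b → Le (prev b.1 b.2) (prev a.1 a.2) := by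
      intro a b hab
      rcases eq_or_lt_of_le hab with h | h
      · subst h
        exact Le.refl _
      · exact hchain a.1 b.1 a.2 b.2 h
    obtain ⟨p, hp1, hp2⟩ := lower_seq (fun n => prev (partialSups e n).1 (partialSups e n).2)
      (fun n => hinf _ _) (fun m n hmn => hch _ _ ((partialSups e).monotone hmn))
    refine ⟨p, hp1, fun j h => ?_⟩
    obtain ⟨n, hn⟩ := he ⟨j, h⟩
    refine (hp2 n).trans ?_
    have h1 := hch (e n) (partialSups e n) (le_partialSups e n)
    rw [hn] at h1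
    exact h1

/-- data chosen at one stage -/
abbrev Dat := Cond × Set Z

/-- the points constructed before stage `i` -/
def before (i : I) (prev : (j : I) → j < i → Dat) : Set Z :=
  {z | ∃ (j : I) (h : j < i), z ∈ (prev j h).2}

/-- the requirement at stage `i` -/
def Req (u : I → ℕ → ℕ → Set Y) (i : I) (prev : (j : I) → j < i → Dat) (s : Dat) : Prop :=
  Good s.1 ∧ (∀ (j : I) (h : j < i), Le s.1 (prev j h).1) ∧ s.2.Countable ∧ s.2 ⊆ Rs s.1 ∧
    (∃ x ∈ s.2, x ∉ before i prev) ∧ Task s.1 s.2 (before i prev) (u i)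

theorem exists_req (u : I → ℕ → ℕ → Set Y) (hu : ∀ i n m, MeasurableSet (u i n m)) {i : I}
    (hI : (Iio i).Countable) (prev : (j : I) → j < i → Dat)
    (hinf : ∀ j h, Good (prev j h).1) (hcnt : ∀ j h, (prev j h).2.Countable)
    (hchain : ∀ (j k : I) (hj : j < i) (hk : k < i), j < k →
      Le (prev k hk).1 (prev j hj).1) :
    ∃ s, Req u i prev s := by
  obtain ⟨p, hp1, hp2⟩ := exists_lower hI (fun j h => (prev j h).1) hinf hchain
  have hbef : (before i prev).Countable := by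
    have : Countable (Iio i) := hI.to_subtype
    have h1 : before i prev ⊆ ⋃ j : Iio i, (prev j.1 j.2).2 := by
      rintro z ⟨j, h, hz⟩
      exact mem_iUnion.2 ⟨⟨j, h⟩, hz⟩
    exact (countable_iUnion (fun j : Iio i => hcnt j.1 j.2)).mono h1
  obtain ⟨Q, D, h1, h2, h3, h4, h5, h6⟩ := stage hp1 hbef (hu i)
  exact ⟨(Q, D), h1, fun j h => h2.trans (hp2 j h), h3, h4, h5, h6⟩

theorem exists_tower (hI : ∀ i : I, (Iio i).Countable) (u : I → ℕ → ℕ → Set Y)
    (hu : ∀ i n m, MeasurableSet (u i n m)) :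
    ∃ b : I → Dat, ∀ i, Req u i (fun j _ => b j) (b i) := by
  classical
  let step : (i : I) → ((j : I) → j < i → Dat) → Dat := fun i prev =>
    if h : ∃ b, Req u i prev b then h.choose else (fun _ => id, ∅)
  let b : I → Dat := WellFounded.fix (wellFounded_lt (α := I)) step
  have hb : ∀ i, b i = step i (fun j _ => b j) := fun i =>
    WellFounded.fix_eq (wellFounded_lt (α := I)) step i
  refine ⟨b, ?_⟩
  intro i
  induction i using WellFoundedLT.induction with
  | ind i ih =>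
    have hex : ∃ b', Req u i (fun j _ => b j) b' := by
      apply exists_req u hu (hI i)
      · intro j h
        exact (ih j h).1
      · intro j h
        exact (ih j h).2.2.1
      · intro j k hj hk hjk
        exact (ih k hk).2.1 j hjk
    rw [hb i]
    simp only [step]
    rw [dif_pos hex]
    exact hex.choose_spec

end Rec

end Pool.Agent.Y338.BG
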