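import Pool.Agent.Y338.BG3
import Pool.Agent.Helper185.SelGamma

/-!
The group constructed from the tower, and its selection properties.
-/

namespace Pool.Agent.Y338.BG

set_option linter.unusedSectionVars false

open Set Filter Topology
open Pool.Agent.Helper185.Silver (Z exists_agree isOpen_agree isOpen_of_agree)
open Pool.Agent.Helper185.Sel

theorem mk_borel_le : Cardinal.mk {s : Set Y // MeasurableSet s} ≤ Cardinal.continuum.{0} := by
  have h1 : (inferInstance : MeasurableSpace Y) =
      MeasurableSpace.generateFrom (TopologicalSpace.countableBasis Y) := by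
    rw [BorelSpace.measurable_eq (α := Y)]
    exact (TopologicalSpace.isBasis_countableBasis Y).borel_eq_generateFrom
  have h2 := MeasurableSpace.cardinal_measurableSet_le_continuum
    (s := TopologicalSpace.countableBasis Y)
    ((Cardinal.le_aleph0_iff_set_countable.2
      (TopologicalSpace.countable_countableBasis Y)).trans Cardinal.aleph0_le_continuum)
  rw [← h1] at h2
  exact h2

theorem mk_fun_le {S : Type} (h : Cardinal.mk S ≤ Cardinal.continuum.{0}) :
    Cardinal.mk (ℕ → S) ≤ Cardinal.continuum.{0} := by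
  rw [← Cardinal.power_def, Cardinal.mk_nat]
  calc Cardinal.mk S ^ Cardinal.aleph0
      ≤ Cardinal.continuum ^ Cardinal.aleph0 := Cardinal.power_le_power_right h
    _ = Cardinal.continuum := Cardinal.continuum_power_aleph0

/-- Under the continuum hypothesis there is a well-order of size continuum with countable initial
segments enumerating all tasks. -/
theorem exists_enumeration (hCH : Cardinal.aleph 1 = Cardinal.continuum.{0}) :
    ∃ (I : Type) (_ : LinearOrder I) (_ : WellFoundedLT I), (∀ i : I, (Iio i).Countable) ∧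
      Cardinal.mk I = Cardinal.continuum.{0} ∧
      ∃ (u : I → ℕ → ℕ → Set Y), (∀ i n m, MeasurableSet (u i n m)) ∧
        ∀ (w : ℕ → ℕ → Set Y), (∀ n m, MeasurableSet (w n m)) → ∃ i, u i = w := by
  classical
  let I : Type := (Cardinal.aleph 1).ord.ToType
  have hI : Cardinal.mk I = Cardinal.continuum := by
    rw [← hCH]
    exact Cardinal.mk_ord_toType _
  refine ⟨I, inferInstance, inferInstance, ?_, hI, ?_⟩
  · intro i
    rw [← Cardinal.le_aleph0_iff_set_countable, ← Cardinal.lt_aleph_one_iff]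
    exact Cardinal.mk_Iio_toType_ord_lt i
  · let T : Type := ℕ → ℕ → {s : Set Y // MeasurableSet s}
    have hT : Cardinal.mk T ≤ Cardinal.mk I := by
      rw [hI]
      exact mk_fun_le (mk_fun_le mk_borel_le)
    obtain ⟨e⟩ := (Cardinal.le_def T I).1 hT
    have : Nonempty T := ⟨(fun _ _ => ⟨univ, MeasurableSet.univ⟩)⟩
    have hsurj : Function.Surjective (Function.invFun e) := Function.invFun_surjective e.injective
    refine ⟨fun i n m => ((Function.invFun e i) n m).1,
      fun i n m => ((Function.invFun e i) n m).2, ?_⟩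
    intro w hw
    obtain ⟨i, hi⟩ := hsurj (fun n m => ⟨w n m, hw n m⟩)
    refine ⟨i, ?_⟩
    change (fun n m => ((Function.invFun e i) n m).1) = w
    rw [hi]

section Group

/-- the subgroup of all integer combinations of points of `A` -/
noncomputable def Grp (A : Set Z) : AddSubgroup Y where
  carrier := {y | ∃ c, Supp A c ∧ Val c = y}
  zero_mem' := by
    refine ⟨0, fun x hx => by simp at hx, ?_⟩
    unfold Val
    exact Finsupp.sum_zero_index
  add_mem' := by
    classical
    rintro _ _ ⟨c, hc, rfl⟩ ⟨d, hd, rfl⟩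
    refine ⟨c + d, fun x hx => ?_, Val_add c d⟩
    rcases Finset.mem_union.1 (Finsupp.support_add hx) with h | h
    · exact hc x h
    · exact hd x h
  neg_mem' := by
    rintro _ ⟨c, hc, rfl⟩
    refine ⟨-c, fun x hx => hc x ?_, Val_neg c⟩
    rwa [Finsupp.support_neg] at hx

theorem mem_Grp {A : Set Z} {y : Y} : y ∈ Grp A ↔ ∃ c, Supp A c ∧ Val c = y := Iff.rfl

theorem e_injective : Function.Injective e := by
  intro x y hxy
  funext n
  have h := congrFun hxy n
  simp only [e] at h
  cases hx : x n <;> cases hy : y n <;> simp [hx, hy] at h ⊢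

theorem e_mem_Grp {A : Set Z} {x : Z} (hx : x ∈ A) : e x ∈ Grp A := by
  classical
  refine ⟨Finsupp.single x 1, ?_, ?_⟩
  · intro y hy
    have := Finsupp.support_single_subset hy
    rw [Finset.mem_singleton] at this
    rwa [this]
  · unfold Val
    rw [Finsupp.sum_single_index]
    · simp
    · simp

end Group

/-- description of countable Borel families on a subspace -/
theorem exists_enum {p : Y → Prop} {U : Set (Set (Subtype p))} (hU : U ∈ BorelFam (Subtype p))
    (hne : U.Nonempty) :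
    ∃ w : ℕ → Set Y, (∀ m, MeasurableSet (w m)) ∧
      U = range (fun m => (Subtype.val ⁻¹' (w m) : Set (Subtype p))) := by
  obtain ⟨V, hV⟩ := hU.1.exists_eq_range hne
  have h1 : ∀ m, ∃ w : Set Y, MeasurableSet w ∧ (Subtype.val ⁻¹' w : Set (Subtype p)) = V m := by
    intro m
    have h2 : @MeasurableSet (Subtype p) (borel (Subtype p)) (V m) :=
      hU.2 _ (by rw [hV]; exact mem_range_self m)
    have h3 : borel (Subtype p) = MeasurableSpace.comap Subtype.val (borel Y) := borel_comap
    rw [h3, MeasurableSpace.measurableSet_comap] at h2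
    have h4 : borel Y = (inferInstance : MeasurableSpace Y) := (BorelSpace.measurable_eq).symm
    rw [h4] at h2
    exact h2
  choose w hw1 hw2 using h1
  refine ⟨w, hw1, ?_⟩
  rw [hV]
  congr 1
  funext m
  exact (hw2 m).symm

theorem omega_nonempty {X : Type*} {G : Set (Set (Set X))} {U : Set (Set X)}
    (hU : U ∈ OmegaOf G) : U.Nonempty := by
  obtain ⟨u, hu, -⟩ := hU.2.2 ∅ finite_empty
  exact ⟨u, hu⟩

section Rec

variable {I : Type} [LinearOrder I] [WellFoundedLT I]

/-- the constructed set -/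
def XS (b : I → Dat) : Set Z := {z | ∃ i, z ∈ (b i).2}

theorem mk_XS {u : I → ℕ → ℕ → Set Y} {b : I → Dat}
    (hb : ∀ i, Req u i (fun j _ => b j) (b i)) : Cardinal.mk I ≤ Cardinal.mk (XS b) := by
  have h1 : ∀ i, ∃ x ∈ (b i).2, x ∉ before i (fun j _ => b j) := fun i => (hb i).2.2.2.2.1
  choose x hx1 hx2 using h1
  refine Cardinal.mk_le_of_injective (f := fun i => (⟨x i, i, hx1 i⟩ : XS b)) ?_
  intro i j hij
  have h2 : x i = x j := congrArg Subtype.val hij
  rcases lt_trichotomy i j with h | h | h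
  · exact absurd ⟨i, h, h2 ▸ hx1 i⟩ (hx2 j)
  · exact h
  · exact absurd ⟨j, h, h2 ▸ hx1 j⟩ (hx2 i)

theorem selection_of_task {u : I → ℕ → ℕ → Set Y} {b : I → Dat}
    (hb : ∀ i, Req u i (fun j _ => b j) (b i)) (i : I)
    (hω : ∀ n, ∀ F : Set Y, F.Finite → F ⊆ Grp (XS b) → ∃ m, F ⊆ u i n m) :
    ∃ f : ℕ → ℕ, ∀ y ∈ Grp (XS b), {n | y ∉ u i n (f n)}.Finite := by
  classical
  obtain ⟨-, -, -, hD, -, htask⟩ := hb i
  have hbX : before i (fun j _ => b j) ⊆ XS b := by
    rintro z ⟨j, _, hz⟩
    exact ⟨j, hz⟩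
  rcases htask with ⟨f, hf⟩ | ⟨n, C, hC, hCn⟩
  · refine ⟨f, ?_⟩
    rintro y ⟨c, hc, rfl⟩
    apply hf c
    apply hc.mono
    rintro z ⟨j, hz⟩
    rcases lt_or_ge j i with h | h
    · exact Or.inl ⟨j, h, hz⟩
    · right
      have hle : Le (b j).1 (b i).1 := by
        rcases eq_or_lt_of_le h with h' | h'
        · subst h'
          exact Le.refl _
        · exact (hb j).2.1 i h'
      exact hle.2 ((hb j).2.2.2.1 hz)
  · exfalso
    obtain ⟨m, hm⟩ := hω n (Val '' (C : Set (Z →₀ ℤ))) (C.finite_toSet.image _) (by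
      rintro _ ⟨c, hc, rfl⟩
      refine ⟨c, (hC c hc).mono ?_, rfl⟩
      rintro z (hz | hz)
      · exact hbX hz
      · exact ⟨i, hz⟩)
    obtain ⟨c, hc, hcm⟩ := hCn m
    exact hcm (hm ⟨c, hc, rfl⟩)

/-- the constructed group satisfies `S₁(B_Ω, B_Γ)` -/
theorem s1_Grp {u : I → ℕ → ℕ → Set Y} {b : I → Dat}
    (hb : ∀ i, Req u i (fun j _ => b j) (b i))
    (hall : ∀ w : ℕ → ℕ → Set Y, (∀ n m, MeasurableSet (w n m)) → ∃ i, u i = w) :
    S1 (OmegaOf (BorelFam (Grp (XS b)))) (GammaOf (BorelFam (Grp (XS b)))) := by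
  intro U hU
  have h1 := fun n => exists_enum (hU n).1 (omega_nonempty (hU n))
  choose w hw hUw using h1
  obtain ⟨i, hi⟩ := hall w hw
  obtain ⟨f, hf⟩ := selection_of_task hb i (by
    intro n F hF hFX
    obtain ⟨v, hv, hFv⟩ := (hU n).2.2 (Subtype.val ⁻¹' F)
      (hF.preimage Subtype.val_injective.injOn)
    rw [hUw n] at hv
    obtain ⟨m, rfl⟩ := hv
    refine ⟨m, fun z hz => ?_⟩
    rw [hi]
    have : (⟨z, hFX hz⟩ : Grp (XS b)) ∈ (Subtype.val ⁻¹' (w n m) : Set (Grp (XS b))) := hFv hz
    exact this)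
  rw [hi] at hf
  refine ⟨fun n => Subtype.val ⁻¹' (w n (f n)), ?_, ?_⟩
  · intro n
    rw [hUw n]
    exact mem_range_self _
  · refine range_gamma (adm_borel _) (fun n => (hU n).1) (fun n => (hU n).2.1.2) ?_ ?_
    · intro n
      rw [hUw n]
      exact mem_range_self _
    · intro x
      exact hf x x.2

end Rec

/-- every open omega-cover of a second countable space contains a countable one -/
theorem exists_countable_omega {X : Type*} [TopologicalSpace X] [SecondCountableTopology X]
    {U : Set (Set X)} (hU : U ∈ OmegaOf (OpenFam X)) :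
    ∃ V ⊆ U, V.Countable ∧ V ∈ OmegaOf (OpenFam X) := by
  classical
  let B := TopologicalSpace.countableBasis X
  have hB := TopologicalSpace.isBasis_countableBasis X
  let SS : Set (Set (Set X)) := {S | S.Finite ∧ S ⊆ B}
  have hSS : SS.Countable := countable_ofPred_finite_subset (TopologicalSpace.countable_countableBasis X)
  let S' : Set (Set (Set X)) := {S ∈ SS | ∃ u ∈ U, ⋃₀ S ⊆ u}
  have hS' : S'.Countable := hSS.mono (fun _ h => h.1)
  have h1 : ∀ S : S', ∃ u ∈ U, ⋃₀ S.1 ⊆ u := fun S => S.2.2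
  choose v hv1 hv2 using h1
  have : Countable S' := hS'.to_subtype
  have hcov : ∀ F : Set X, F.Finite → ∃ u ∈ range v, F ⊆ u := by
    intro F hF
    obtain ⟨u, hu, hFu⟩ := hU.2.2 F hF
    have h2 : ∀ x : X, ∃ c : Set X, x ∈ F → c ∈ B ∧ x ∈ c ∧ c ⊆ u := by
      intro x
      by_cases hx : x ∈ F
      · obtain ⟨c, hc, hxc, hcu⟩ := hB.exists_subset_of_mem_open (hFu hx) (hU.1 u hu)
        exact ⟨c, fun _ => ⟨hc, hxc, hcu⟩⟩
      · exact ⟨∅, fun h => absurd h hx⟩
    choose c hc using h2
    have hmem : c '' F ∈ S' := by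
      refine ⟨⟨hF.image c, ?_⟩, u, hu, ?_⟩
      · rintro _ ⟨x, hx, rfl⟩
        exact (hc x hx).1
      · rintro y ⟨_, ⟨x, hx, rfl⟩, hy⟩
        exact (hc x hx).2.2 hy
    refine ⟨v ⟨_, hmem⟩, mem_range_self _, ?_⟩
    intro x hx
    apply hv2 ⟨_, hmem⟩
    exact ⟨c x, ⟨x, hx, rfl⟩, (hc x hx).2.1⟩
  have hsub : range v ⊆ U := by
    rintro _ ⟨S, rfl⟩
    exact hv1 S
  refine ⟨range v, hsub, countable_range v, fun u hu => hU.1 u (hsub hu), ⟨?_, ?_⟩, hcov⟩
  · rw [eq_univ_iff_forall]
    intro x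
    obtain ⟨u, hu, hx⟩ := hcov {x} (finite_singleton x)
    exact ⟨u, hu, hx rfl⟩
  · intro h
    exact hU.2.1.2 (hsub h)

/-- the Borel property implies the open property -/
theorem s1_open_of_borel {X : Type*} [TopologicalSpace X] [SecondCountableTopology X]
    (h : S1 (OmegaOf (BorelFam X)) (GammaOf (BorelFam X))) :
    S1 (OmegaOf (OpenFam X)) (GammaOf (OpenFam X)) := by
  intro U hU
  have h1 := fun n => exists_countable_omega (hU n)
  choose V hVU hVc hV using h1
  have hborel : ∀ n, V n ∈ BorelFam X := by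
    intro n
    refine ⟨hVc n, fun u hu => ?_⟩
    let _ := borel X
    have _ : BorelSpace X := ⟨rfl⟩
    exact ((hV n).1 u hu).measurableSet
  obtain ⟨v, hv1, hv2⟩ := h V (fun n => ⟨hborel n, (hV n).2⟩)
  refine ⟨v, fun n => hVU n (hv1 n), ?_, hv2.2⟩
  rintro _ ⟨n, rfl⟩
  exact (hV n).1 _ (hv1 n)

/-- the main theorem -/
theorem main (hCH : Cardinal.aleph 1 = Cardinal.continuum.{0}) :
    ∃ G : AddSubgroup (ℕ → ℤ), Cardinal.mk G = Cardinal.continuum.{0} ∧
      S1 (OmegaOf (BorelFam G)) (GammaOf (BorelFam G)) ∧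
      S1 (OmegaOf (OpenFam G)) (GammaOf (OpenFam G)) := by
  classical
  obtain ⟨I, _, _, hI, hmk, u, hu, hall⟩ := exists_enumeration hCH
  obtain ⟨b, hb⟩ := exists_tower hI u hu
  have hS := s1_Grp hb hall
  have : SecondCountableTopology (Grp (XS b)) :=
    (Topology.IsEmbedding.subtypeVal (p := fun y => y ∈ Grp (XS b))).secondCountableTopology
  refine ⟨Grp (XS b), le_antisymm ?_ ?_, hS, s1_open_of_borel hS⟩
  · calc Cardinal.mk (Grp (XS b)) ≤ Cardinal.mk Y := Cardinal.mk_subtype_le _
      _ ≤ Cardinal.continuum := mk_fun_le (by simpa using Cardinal.aleph0_le_continuum)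
  · rw [← hmk]
    refine (mk_XS hb).trans ?_
    refine Cardinal.mk_le_of_injective
      (f := fun x : XS b => (⟨e x.1, e_mem_Grp x.2⟩ : Grp (XS b))) ?_
    intro x y hxy
    exact Subtype.ext (e_injective (congrArg Subtype.val hxy))

end Pool.Agent.Y338.BG
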